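import Mathlib

set_option autoImplicit false
set_option linter.unusedSectionVars false
set_option linter.deprecated false

namespace Pool.Agent.H2.Zg

/-! Pseudo-coherent modules: every finitely generated submodule is finitely presented. -/

section
variable {R : Type*} [Ring R]

def PCoh (R : Type*) [Ring R] (M : Type*) [AddCommGroup M] [Module R M] : Prop :=
  ∀ N : Submodule R M, N.FG → Module.FinitePresentation R N

variable {M : Type*} [AddCommGroup M] [Module R M] {M' : Type*} [AddCommGroup M'] [Module R M']

theorem PCoh.of_injective (h : PCoh R M') (f : M →ₗ[R] M') (hf : Function.Injective f) :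
    PCoh R M := by
  intro N hN
  haveI := h (N.map f) (hN.map f)
  exact Module.FinitePresentation.of_equiv (Submodule.equivMapOfInjective f hf N).symm

theorem PCoh.of_equiv (h : PCoh R M') (f : M ≃ₗ[R] M') : PCoh R M :=
  h.of_injective f.toLinearMap f.injective

/-- the kernel of the restriction of a map to an f.g. submodule, relative version. -/
theorem inf_ker_fg (f : M →ₗ[R] M') (N : Submodule R M) (hN : N.FG)
    (h : Module.FinitePresentation R (N.map f)) : (N ⊓ LinearMap.ker f).FG := by
  haveI : Module.Finite R N := Module.Finite.of_fg hN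
  let g : N →ₗ[R] (N.map f) := f.submoduleMap N
  have hg : Function.Surjective g := f.submoduleMap_surjective N
  have hk : (LinearMap.ker g).FG := Module.FinitePresentation.fg_ker g hg
  have : (LinearMap.ker g).map N.subtype = N ⊓ LinearMap.ker f := by
    ext x
    simp only [Submodule.mem_map, LinearMap.mem_ker, Submodule.subtype_apply, Subtype.exists,
      exists_and_right, exists_eq_right, Submodule.mem_inf]
    constructor
    · rintro ⟨hx, h1⟩
      refine ⟨hx, ?_⟩
      have := congrArg Subtype.val h1
      simpa [g] using this
    · rintro ⟨hx, h1⟩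
      refine ⟨hx, ?_⟩
      apply Subtype.ext
      simpa [g] using h1
  rw [← this]
  exact hk.map _

theorem fp_of_ext (f : M →ₗ[R] M') (N : Submodule R M)
    (h : Module.FinitePresentation R (N.map f))
    (h' : Module.FinitePresentation R (N ⊓ LinearMap.ker f : Submodule R M)) :
    Module.FinitePresentation R N := by
  let g : N →ₗ[R] (N.map f) := f.submoduleMap N
  have hg : Function.Surjective g := f.submoduleMap_surjective N
  have e : (LinearMap.ker g).map N.subtype = N ⊓ LinearMap.ker f := by
    ext x
    simp only [Submodule.mem_map, LinearMap.mem_ker, Submodule.subtype_apply, Subtype.exists,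
      exists_and_right, exists_eq_right, Submodule.mem_inf]
    constructor
    · rintro ⟨hx, h1⟩
      refine ⟨hx, ?_⟩
      have := congrArg Subtype.val h1
      simpa [g] using this
    · rintro ⟨hx, h1⟩
      refine ⟨hx, ?_⟩
      apply Subtype.ext
      simpa [g] using h1
  haveI : Module.FinitePresentation R (LinearMap.ker g) := by
    rw [← e] at h'
    exact Module.FinitePresentation.of_equiv
      (Submodule.equivMapOfInjective N.subtype N.injective_subtype (LinearMap.ker g)).symm
  exact Module.finitePresentation_of_ker g hg

/-- Extensions. -/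
theorem PCoh.ext (f : M →ₗ[R] M') (h : PCoh R M') (hk : PCoh R (LinearMap.ker f)) : PCoh R M := by
  intro N hN
  have h1 := h (N.map f) (hN.map f)
  have h2 := inf_ker_fg f N hN h1
  apply fp_of_ext f N h1
  have h3 : ((N ⊓ LinearMap.ker f).comap (LinearMap.ker f).subtype).map (LinearMap.ker f).subtype
      = N ⊓ LinearMap.ker f := by
    rw [Submodule.map_comap_subtype]
    exact inf_eq_right.2 inf_le_right
  have h4 : ((N ⊓ LinearMap.ker f).comap (LinearMap.ker f).subtype).FG := by
    apply Submodule.fg_of_fg_map_injective _ (LinearMap.ker f).injective_subtype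
    rw [h3]; exact h2
  haveI := hk _ h4
  rw [← h3]
  exact Module.FinitePresentation.of_equiv
    (Submodule.equivMapOfInjective (LinearMap.ker f).subtype (LinearMap.ker f).injective_subtype _)

theorem PCoh.prod (h : PCoh R M) (h' : PCoh R M') : PCoh R (M × M') := by
  apply PCoh.ext (LinearMap.fst R M M') h
  apply h'.of_injective ((LinearMap.snd R M M') ∘ₗ (LinearMap.ker (LinearMap.fst R M M')).subtype)
  rintro ⟨⟨a, b⟩, hab⟩ ⟨⟨c, d⟩, hcd⟩ e
  simp only [LinearMap.mem_ker, LinearMap.fst_apply] at hab hcd
  subst hab; subst hcd
  simp at e
  simp [e]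

theorem PCoh.of_subsingleton [Subsingleton M] : PCoh R M := by
  intro N _
  infer_instance

theorem PCoh.pi {ι : Type*} [Finite ι] (h : PCoh R M) : PCoh R (ι → M) := by
  have key : ∀ n : ℕ, PCoh R (Fin n → M) := by
    intro n
    induction n with
    | zero => exact PCoh.of_subsingleton
    | succ n ih =>
      apply PCoh.ext (LinearMap.proj (R := R) (φ := fun _ : Fin (n+1) => M) 0) h
      apply ih.of_injective ((LinearMap.pi (fun i : Fin n => LinearMap.proj (R := R)
        (φ := fun _ : Fin (n+1) => M) i.succ)) ∘ₗ (Submodule.subtype _))
      rintro ⟨a, ha⟩ ⟨b, hb⟩ e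
      apply Subtype.ext
      simp only [LinearMap.mem_ker, LinearMap.proj_apply] at ha hb
      funext i
      refine Fin.cases ?_ (fun j => ?_) i
      · simp [ha, hb]
      · have := congrFun e j
        simpa using this
  obtain ⟨n, ⟨e⟩⟩ := Finite.exists_equiv_fin ι
  exact (key n).of_equiv (LinearEquiv.funCongrLeft R M e.symm)

/-- Quotients by f.g. submodules. -/
theorem PCoh.quot (h : PCoh R M) (A : Submodule R M) (hA : A.FG) : PCoh R (M ⧸ A) := by
  intro N hN
  let B : Submodule R M := N.comap A.mkQ
  have hmap : B.map A.mkQ = N := Submodule.map_comap_eq_of_surjective A.mkQ_surjective N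
  have hker : B ⊓ LinearMap.ker A.mkQ = A := by
    rw [Submodule.ker_mkQ]
    apply inf_eq_right.2
    intro x hx
    show A.mkQ x ∈ N
    have : A.mkQ x = 0 := by simpa using hx
    rw [this]; exact N.zero_mem
  have hB : B.FG := by
    apply Submodule.fg_of_fg_map_of_fg_inf_ker A.mkQ
    · rw [hmap]; exact hN
    · rw [hker]; exact hA
  haveI := h B hB
  let g : B →ₗ[R] (B.map A.mkQ) := A.mkQ.submoduleMap B
  have hg : Function.Surjective g := A.mkQ.submoduleMap_surjective B
  have hk : (LinearMap.ker g).FG := by
    have e : (LinearMap.ker g).map B.subtype = B ⊓ LinearMap.ker A.mkQ := by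
      ext x
      simp only [Submodule.mem_map, LinearMap.mem_ker, Submodule.subtype_apply, Subtype.exists,
        exists_and_right, exists_eq_right, Submodule.mem_inf]
      constructor
      · rintro ⟨hx, h1⟩
        refine ⟨hx, ?_⟩
        have := congrArg Subtype.val h1
        simpa [g] using this
      · rintro ⟨hx, h1⟩
        refine ⟨hx, ?_⟩
        apply Subtype.ext
        simpa [g] using h1
    apply Submodule.fg_of_fg_map_injective _ B.injective_subtype
    rw [e, hker]; exact hA
  haveI := Module.finitePresentation_of_surjective g hg hk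
  rw [← hmap]
  infer_instance

/-- Over a coherent ring finitely presented modules are pseudo-coherent. -/
theorem PCoh.of_fp (h : PCoh R R) (F : Type*) [AddCommGroup F] [Module R F]
    [Module.FinitePresentation R F] : PCoh R F := by
  obtain ⟨n, A, e, hA⟩ := Module.FinitePresentation.exists_fin R F
  exact ((h.pi (ι := Fin n)).quot A hA).of_equiv e

/-- kernel of a map between an f.g. module and a pseudo-coherent module is f.g. -/
theorem PCoh.ker_fg (h : PCoh R M') [Module.Finite R M] (f : M →ₗ[R] M') :
    (LinearMap.ker f).FG := by
  have h1 := inf_ker_fg f ⊤ Module.Finite.fg_top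
    (h _ ((Module.Finite.fg_top (R := R) (M := M)).map f))
  simpa using h1

/-- intersection of f.g. submodules -/
theorem PCoh.inf_fg (h : PCoh R M) {A B : Submodule R M} (hA : A.FG) (hB : B.FG) :
    (A ⊓ B).FG := by
  have h1 := inf_ker_fg B.mkQ A hA ((h.quot B hB) _ (hA.map _))
  simpa using h1

theorem fp_span_singleton (x : M) (h : (LinearMap.ker (LinearMap.toSpanSingleton R M x)).FG) :
    Module.FinitePresentation R (Submodule.span R {x}) := by
  rw [← LinearMap.range_toSpanSingleton]
  apply Module.finitePresentation_of_surjective
    (LinearMap.toSpanSingleton R M x).rangeRestrict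
    (LinearMap.surjective_rangeRestrict _)
  rw [LinearMap.ker_rangeRestrict]
  exact h

end

end Pool.Agent.H2.Zg
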