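import Mathlib

set_option autoImplicit false

namespace Pool.Agent.H2.Zg

/-! Lexicographic order on lists: a few facts. -/

section Lists
variable {X : Type} [LinearOrder X]

theorem append_lt_append_iff (k a b : List X) : k ++ a < k ++ b ↔ a < b := by
  induction k with
  | nil => simp
  | cons x k ih => simp [ih]

theorem append_le_append_iff (k a b : List X) : k ++ a ≤ k ++ b ↔ a ≤ b := by
  rw [← not_lt, ← not_lt, append_lt_append_iff]

theorem nil_le' (a : List X) : ([] : List X) ≤ a := by
  rw [← not_lt]; intro h; cases h

theorem nil_lt_of_ne {a : List X} (h : a ≠ []) : ([] : List X) < a :=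
  lt_of_le_of_ne (nil_le' a) (Ne.symm h)

/-- An element between `k ++ a` and `k ++ b` starts with `k`. -/
theorem exists_of_between (k : List X) : ∀ (a b r : List X), k ++ a ≤ r → r ≤ k ++ b →
    ∃ c, r = k ++ c := by
  induction k with
  | nil => intro a b r _ _; exact ⟨r, rfl⟩
  | cons x k ih =>
    intro a b r h1 h2
    cases r with
    | nil =>
      exfalso
      have : (x :: k) ++ a = [] := le_antisymm h1 (nil_le' _)
      simp at this
    | cons z r =>
      have hz1 : x ≤ z := by
        rcases lt_or_eq_of_le h1 with h | h
        · rw [List.cons_append, List.cons_lt_cons_iff] at h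
          rcases h with h | h
          · exact h.le
          · exact h.1.le
        · simp at h; exact h.1.le
      have hz2 : z ≤ x := by
        rcases lt_or_eq_of_le h2 with h | h
        · rw [List.cons_append, List.cons_lt_cons_iff] at h
          rcases h with h | h
          · exact h.le
          · exact h.1.le
        · simp at h; exact h.1.le
      have hz : x = z := le_antisymm hz1 hz2
      subst hz
      have h1' : k ++ a ≤ r := by
        have := (append_le_append_iff [x] (k ++ a) r).1
        exact this (by simpa using h1)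
      have h2' : r ≤ k ++ b := by
        have := (append_le_append_iff [x] r (k ++ b)).1
        exact this (by simpa using h2)
      obtain ⟨c, hc⟩ := ih a b r h1' h2'
      exact ⟨c, by rw [hc]; rfl⟩

theorem append_lt_append_of_lt : ∀ (k h : List X), k.length = h.length → k < h →
    ∀ a b : List X, k ++ a < h ++ b := by
  intro k
  induction k with
  | nil =>
    intro h hl hlt a b
    have : h = [] := List.length_eq_zero_iff.1 (by simpa using hl.symm)
    subst this; exact absurd hlt (lt_irrefl _)
  | cons x k ih =>
    intro h hl hlt a b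
    cases h with
    | nil => simp at hl
    | cons y h =>
      rw [List.cons_append, List.cons_append, List.cons_lt_cons_iff]
      rw [List.cons_lt_cons_iff] at hlt
      rcases hlt with h1 | h1
      · exact Or.inl h1
      · exact Or.inr ⟨h1.1, ih h (by simpa using hl) h1.2 a b⟩

end Lists

/-- Points: `⟨g, x⟩` stands for the nonempty list `g ++ [x]`. -/
@[ext] structure Pt (X : Type) where
  ini : List X
  lst : X

namespace Pt
variable {X : Type}

def toL (p : Pt X) : List X := p.ini ++ [p.lst]

theorem toL_injective : Function.Injective (toL : Pt X → List X) := by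
  intro p q h
  unfold toL at h
  have := List.append_inj' h rfl
  ext1
  · exact this.1
  · simpa using this.2

theorem toL_ne_nil (p : Pt X) : p.toL ≠ [] := by simp [toL]

theorem exists_toL {l : List X} (h : l ≠ []) : ∃ p : Pt X, p.toL = l :=
  ⟨⟨l.dropLast, l.getLast h⟩, by simp [toL, List.dropLast_append_getLast]⟩

/-- Action of lists by prepending. -/
def act (k : List X) (p : Pt X) : Pt X := ⟨k ++ p.ini, p.lst⟩

@[simp] theorem act_ini (k : List X) (p : Pt X) : (act k p).ini = k ++ p.ini := rfl
@[simp] theorem act_lst (k : List X) (p : Pt X) : (act k p).lst = p.lst := rfl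

@[simp] theorem act_nil (p : Pt X) : act [] p = p := rfl

theorem act_act (k h : List X) (p : Pt X) : act k (act h p) = act (k ++ h) p := by
  ext1 <;> simp

@[simp] theorem toL_act (k : List X) (p : Pt X) : (act k p).toL = k ++ p.toL := by
  simp [toL]

theorem act_injective (k : List X) : Function.Injective (act k) := by
  intro p q h
  have h1 : k ++ p.ini = k ++ q.ini := congrArg Pt.ini h
  have h2 : p.lst = q.lst := by
    have := congrArg Pt.lst h
    simpa using this
  ext1
  · exact List.append_cancel_left h1
  · exact h2

theorem act_left_inj {k h : List X} {p : Pt X} (e : act k p = act h p) : k = h := by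
  have h1 : k ++ p.ini = h ++ p.ini := congrArg Pt.ini e
  exact List.append_cancel_right h1

/-- The type of a point. -/
def ty (p : Pt X) : Multiset X × X := (↑p.ini, p.lst)

theorem ty_eq_iff {p q : Pt X} : ty p = ty q ↔ p.ini.Perm q.ini ∧ p.lst = q.lst := by
  simp [ty]

theorem ty_act {k h : List X} (e : k.Perm h) (p : Pt X) : ty (act k p) = ty (act h p) := by
  rw [ty_eq_iff]
  exact ⟨by simpa using e.append_right _, rfl⟩

theorem length_eq_of_ty {p q : Pt X} (h : ty p = ty q) : p.ini.length = q.ini.length :=
  (ty_eq_iff.1 h).1.length_eq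

theorem finite_perm (g : List X) : {h : List X | h.Perm g}.Finite := by
  classical
  apply Set.Finite.subset (s := {h | h ∈ g.permutations})
  · exact List.finite_toSet _
  · intro h hh
    exact List.mem_permutations.2 hh

theorem finite_ty (p : Pt X) : {q : Pt X | ty q = ty p}.Finite := by
  have := (finite_perm p.ini).image (fun h => (⟨h, p.lst⟩ : Pt X))
  apply this.subset
  intro q hq
  rw [Set.mem_ofPred_eq, ty_eq_iff] at hq
  exact ⟨q.ini, hq.1, by ext1 <;> simp [hq.2]⟩

/-- reduced pairs: no common nonempty prefix acting. -/
def Red (q p : Pt X) : Prop := ∀ (k : List X) (q' p' : Pt X), q = act k q' → p = act k p' → k = []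

theorem Red.symm {q p : Pt X} (h : Red q p) : Red p q := fun k q' p' h1 h2 => h k p' q' h2 h1

theorem red_single (x : X) (p : Pt X) : Red ⟨[], x⟩ p := by
  intro k q' p' h _
  have := congrArg Pt.ini h
  simp at this
  exact this.1

/-- Every pair of points is obtained from a reduced pair by prepending a list. -/
theorem exists_red (q p : Pt X) : ∃ (g : List X) (q' p' : Pt X), q = act g q' ∧ p = act g p' ∧
    Red q' p' := by
  classical
  -- choose a common prefix of maximal length
  have hb : ∃ n : ℕ, ∃ (g : List X) (q' p' : Pt X), q = act g q' ∧ p = act g p' ∧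
      n = q.ini.length - g.length := ⟨_, [], q, p, rfl, rfl, rfl⟩
  obtain ⟨g, q', p', h1, h2, h3⟩ := Nat.find_spec hb
  refine ⟨g, q', p', h1, h2, ?_⟩
  intro k q'' p'' e1 e2
  by_contra hk
  have hlt : q.ini.length - (g ++ k).length < Nat.find hb := by
    rw [h3]
    have hk' : 0 < k.length := List.length_pos_iff.2 hk
    have : q.ini.length = g.length + q'.ini.length := by rw [h1]; simp
    have h4 : q'.ini.length = k.length + q''.ini.length := by rw [e1]; simp
    simp only [List.length_append]
    omega
  apply Nat.find_min hb hlt
  refine ⟨g ++ k, q'', p'', ?_, ?_, rfl⟩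
  · rw [h1, e1, act_act]
  · rw [h2, e2, act_act]

/-- If `act k p' = act h p` and `act k q' = act h q` with `(q,p)` reduced then `k` is a prefix
of `h`. -/
theorem prefix_of_red {q p q' p' : Pt X} (hr : Red q p) {k h : List X}
    (e1 : act k p' = act h p) (e2 : act k q' = act h q) :
    ∃ h', h = k ++ h' ∧ p' = act h' p ∧ q' = act h' q := by
  have i1 : k ++ p'.ini = h ++ p.ini := congrArg Pt.ini e1
  have i2 : k ++ q'.ini = h ++ q.ini := congrArg Pt.ini e2
  have l1 : p'.lst = p.lst := by
    have := congrArg Pt.lst e1
    simpa using this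
  have l2 : q'.lst = q.lst := by
    have := congrArg Pt.lst e2
    simpa using this
  rcases List.append_eq_append_iff.1 i1 with ⟨l, hl1, hl2⟩ | ⟨l, hl1, hl2⟩
  · -- h = k ++ l, p'.ini = l ++ p.ini
    refine ⟨l, hl1, ?_, ?_⟩
    · ext1
      · simpa using hl2
      · simpa using l1
    · ext1
      · rw [hl1] at i2
        rw [List.append_assoc] at i2
        simpa using List.append_cancel_left i2
      · simpa using l2
  · -- k = h ++ l, p.ini = l ++ p'.ini
    have hp : p = act l p' := by
      ext1
      · simpa using hl2
      · simpa using l1.symm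
    have hq : q = act l q' := by
      ext1
      · rw [hl1] at i2
        rw [List.append_assoc] at i2
        simpa using (List.append_cancel_left i2).symm
      · simpa using l2.symm
    have hl : l = [] := hr l q' p' hq hp
    subst hl
    refine ⟨[], by simpa using hl1.symm, by simpa using hp.symm, by simpa using hq.symm⟩

section Order
variable [LinearOrder X]

instance : LinearOrder (Pt X) := LinearOrder.lift' Pt.toL toL_injective

theorem le_iff {p q : Pt X} : p ≤ q ↔ p.toL ≤ q.toL := Iff.rfl
theorem lt_iff {p q : Pt X} : p < q ↔ p.toL < q.toL := Iff.rfl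

theorem act_le_act_iff (k : List X) (p q : Pt X) : act k p ≤ act k q ↔ p ≤ q := by
  rw [le_iff, le_iff, toL_act, toL_act, append_le_append_iff]

theorem act_lt_act_iff (k : List X) (p q : Pt X) : act k p < act k q ↔ p < q := by
  rw [lt_iff, lt_iff, toL_act, toL_act, append_lt_append_iff]

theorem act_mono_left {k h : List X} (hl : k.length = h.length) (hlt : k < h) (p q : Pt X) :
    act k p < act h q := by
  rw [lt_iff, toL_act, toL_act]
  exact append_lt_append_of_lt k h hl hlt _ _

theorem lt_of_act_lt_act {k h : List X} (hl : k.length = h.length) {p : Pt X}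
    (hlt : act k p < act h p) : k < h := by
  rcases lt_trichotomy k h with h1 | h1 | h1
  · exact h1
  · subst h1; exact absurd hlt (lt_irrefl _)
  · exact absurd hlt (not_lt.2 (act_mono_left hl.symm h1 p p).le)

/-- points between `act k q` and `act k p` are of the form `act k r'`. -/
theorem between_act {k : List X} {q p r : Pt X} (h1 : act k q ≤ r) (h2 : r ≤ act k p) :
    ∃ r', r = act k r' := by
  rw [le_iff, toL_act] at h1 h2
  obtain ⟨c, hc⟩ := exists_of_between k _ _ _ h1 h2
  have hc' : c ≠ [] := by
    rintro rfl
    rw [hc, append_le_append_iff] at h1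
    exact absurd (le_antisymm h1 (nil_le' _)) (toL_ne_nil q)
  obtain ⟨r', hr'⟩ := exists_toL hc'
  refine ⟨r', toL_injective ?_⟩
  rw [hc, toL_act, hr']

/-- points strictly above the node `(k, c)` and below `act (k ++ [c]) p`. -/
theorem node_between {k : List X} {c : X} {p r : Pt X} (h1 : (⟨k, c⟩ : Pt X) < r)
    (h2 : r ≤ act (k ++ [c]) p) : ∃ r', r = act (k ++ [c]) r' := by
  rw [le_iff, toL_act] at h2
  rw [lt_iff] at h1
  have h1' : (k ++ [c]) ++ [] < r.toL := by simpa [toL] using h1
  obtain ⟨d, hd⟩ := exists_of_between (k ++ [c]) _ _ _ h1'.le h2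
  have hd' : d ≠ [] := by
    rintro rfl
    rw [hd] at h1'
    exact lt_irrefl _ h1'
  obtain ⟨r', hr'⟩ := exists_toL hd'
  refine ⟨r', toL_injective ?_⟩
  rw [hd, toL_act, hr']

theorem node_lt_act (k : List X) (c : X) (p : Pt X) : (⟨k, c⟩ : Pt X) < act (k ++ [c]) p := by
  rw [lt_iff, toL_act]
  have : (⟨k, c⟩ : Pt X).toL = (k ++ [c]) ++ [] := by simp [toL]
  rw [this, append_lt_append_iff]
  exact nil_lt_of_ne (toL_ne_nil p)

end Order

end Pt

end Pool.Agent.H2.Zg
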