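import Mathlib
import Pool.Agent.H2.Zg.Order

set_option autoImplicit false
set_option linter.unusedSectionVars false
set_option linter.unusedSimpArgs false
set_option linter.deprecated false

namespace Pool.Agent.H2.Zg

open Pt

variable (X : Type) [LinearOrder X] (K : Type) [Field K]

/-- The big vector space. -/
abbrev MM := Pt X →₀ K

variable {X K}

/-- basis vector -/
noncomputable abbrev dl (v : Pt X) : MM X K := Finsupp.single v 1

/-- matrix coefficient of an operator: coefficient of `y` in `T v`. -/
noncomputable def co (T : Module.End K (MM X K)) (y v : Pt X) : K := T (dl v) y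

theorem apply_eq_finsum (T : Module.End K (MM X K)) (m : MM X K) (y : Pt X) :
    T m y = ∑ᶠ r, m r * co T y r := by
  have h1 : m = m.sum (fun r a => a • dl (K := K) r) := by
    conv_lhs => rw [← Finsupp.sum_single m]
    apply Finsupp.sum_congr
    intro r _
    simp [dl]
  have h2 : T m = m.sum (fun r a => a • T (dl r)) := by
    conv_lhs => rw [h1]
    rw [map_finsuppSum]
    apply Finsupp.sum_congr
    intro r _
    rw [map_smul]
  rw [h2, Finsupp.sum, Finsupp.finsetSum_apply]
  rw [finsum_eq_sum_of_support_subset (s := m.support)]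
  · rfl
  · intro r hr
    simp only [Function.mem_support] at hr
    simp only [Finset.mem_coe, Finsupp.mem_support_iff]
    intro h0
    exact hr (by rw [h0, zero_mul])

theorem co_mul (T S : Module.End K (MM X K)) (y v : Pt X) :
    co (T * S) y v = ∑ᶠ r, co S r v * co T y r := by
  unfold co
  rw [Module.End.mul_apply, apply_eq_finsum]
  rfl

theorem ext_co {T S : Module.End K (MM X K)} (h : ∀ v, T (dl v) = S (dl v)) : T = S := by
  apply Finsupp.lhom_ext'
  intro v
  apply LinearMap.ext_ring
  exact h v

/-- Triangular -/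
def Tri (T : Module.End K (MM X K)) : Prop := ∀ y v, co T y v ≠ 0 → y ≤ v

/-- prefix-permutation invariant -/
def Inv (T : Module.End K (MM X K)) : Prop :=
  ∀ (k h : List X) (q p : Pt X), k.Perm h → co T (act k q) (act k p) = co T (act h q) (act h p)

/-- scalar at infinity -/
def Sca (T : Module.End K (MM X K)) : Prop :=
  ∃ c : K, {v | T (dl v) ≠ c • dl v}.Finite

theorem finsum_act {k : List X} {f : Pt X → K} (hf : ∀ r, f r ≠ 0 → ∃ r', r = act k r') :
    ∑ᶠ r, f r = ∑ᶠ r', f (act k r') := by
  rw [← finsum_mem_range (act_injective k)]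
  rw [finsum_mem_def]
  apply finsum_congr
  intro r
  by_cases hr : r ∈ Set.range (act k)
  · rw [Set.indicator_of_mem hr]
  · rw [Set.indicator_of_notMem hr]
    by_contra h0
    obtain ⟨r', hr'⟩ := hf r h0
    exact hr ⟨r', hr'.symm⟩

theorem Tri.mul {T S : Module.End K (MM X K)} (hT : Tri T) (hS : Tri S) : Tri (T * S) := by
  intro y v h
  rw [co_mul] at h
  have : ∃ r, co S r v * co T y r ≠ 0 := by
    by_contra h0
    push Not at h0
    exact h (finsum_eq_zero_of_forall_eq_zero h0)
  obtain ⟨r, hr⟩ := this
  exact (hT y r (right_ne_zero_of_mul hr)).trans (hS r v (left_ne_zero_of_mul hr))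

theorem Inv.mul {T S : Module.End K (MM X K)} (hT : Tri T) (hS : Tri S) (iT : Inv T) (iS : Inv S) :
    Inv (T * S) := by
  have key : ∀ (k : List X) (q p : Pt X), co (T * S) (act k q) (act k p) =
      ∑ᶠ r', co S (act k r') (act k p) * co T (act k q) (act k r') := by
    intro k q p
    rw [co_mul]
    apply finsum_act
    intro r hr
    exact between_act (hT _ _ (right_ne_zero_of_mul hr)) (hS _ _ (left_ne_zero_of_mul hr))
  intro k h q p hkh
  rw [key, key]
  apply finsum_congr
  intro r'
  rw [iT k h q r' hkh, iS k h r' p hkh]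

theorem Sca.mul {T S : Module.End K (MM X K)} (hT : Sca T) (hS : Sca S) : Sca (T * S) := by
  obtain ⟨c, hc⟩ := hT
  obtain ⟨d, hd⟩ := hS
  refine ⟨c * d, (hc.union hd).subset ?_⟩
  intro v hv
  by_contra h0
  simp only [Set.mem_union, Set.mem_setOf_eq, not_or, not_not] at h0
  apply hv
  rw [Module.End.mul_apply, h0.2, map_smul, h0.1, smul_smul, mul_comm]

variable (X K)

/-- The ring of the counterexample. -/
def ringR : Subring (Module.End K (MM X K)) where
  carrier := {T | Tri T ∧ Inv T ∧ Sca T}
  mul_mem' := by
    rintro T S ⟨h1, h2, h3⟩ ⟨h4, h5, h6⟩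
    exact ⟨h1.mul h4, h2.mul h1 h4 h5, h3.mul h6⟩
  one_mem' := by
    refine ⟨?_, ?_, 1, ?_⟩
    · intro y v h
      by_contra h0
      apply h
      have : y ≠ v := fun h1 => h0 h1.le
      simp [co, dl, Finsupp.single_apply, Ne.symm this]
    · intro k h q p hkh
      simp only [co, dl, Module.End.one_apply, Finsupp.single_apply]
      by_cases hqp : p = q
      · subst hqp; simp
      · rw [if_neg, if_neg]
        · exact fun h1 => hqp (act_injective _ h1)
        · exact fun h1 => hqp (act_injective _ h1)
    · simp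
  add_mem' := by
    rintro T S ⟨h1, h2, c, h3⟩ ⟨h4, h5, d, h6⟩
    refine ⟨?_, ?_, c + d, ?_⟩
    · intro y v h
      have : co T y v ≠ 0 ∨ co S y v ≠ 0 := by
        by_contra h0
        push Not at h0
        apply h
        have h7 : co (T + S) y v = co T y v + co S y v := rfl
        rw [h7, h0.1, h0.2, add_zero]
      rcases this with h0 | h0
      · exact h1 y v h0
      · exact h4 y v h0
    · intro k h q p hkh
      have h7 : ∀ y v, co (T + S) y v = co T y v + co S y v := fun _ _ => rfl
      rw [h7, h7, h2 k h q p hkh, h5 k h q p hkh]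
    · apply (h3.union h6).subset
      intro v hv
      by_contra h0
      simp only [Set.mem_union, Set.mem_setOf_eq, not_or, not_not] at h0
      apply hv
      rw [LinearMap.add_apply, h0.1, h0.2, add_smul]
  zero_mem' := by
    refine ⟨?_, ?_, 0, ?_⟩
    · intro y v h
      exact absurd rfl h
    · intro k h q p hkh
      rfl
    · simp
  neg_mem' := by
    rintro T ⟨h1, h2, c, h3⟩
    have h7 : ∀ y v, co (-T) y v = - co T y v := fun _ _ => rfl
    refine ⟨?_, ?_, -c, ?_⟩
    · intro y v h
      rw [h7, neg_ne_zero] at h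
      exact h1 y v h
    · intro k h q p hkh
      rw [h7, h7, h2 k h q p hkh]
    · apply h3.subset
      intro v hv
      intro h0
      apply hv
      rw [LinearMap.neg_apply, h0, neg_smul]

variable {X K}

theorem mem_ringR {T : Module.End K (MM X K)} : T ∈ ringR X K ↔ Tri T ∧ Inv T ∧ Sca T := Iff.rfl

/-- The ring as a type. -/
abbrev RR (X : Type) [LinearOrder X] (K : Type) [Field K] : Type := ↥(ringR X K)

theorem smul_def' (r : RR X K) (m : MM X K) : r • m = (r : Module.End K (MM X K)) m := rfl

/-- operator from a partial function -/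
noncomputable def opf (f : Pt X → Option (Pt X)) : Module.End K (MM X K) :=
  Finsupp.linearCombination K (fun v => (f v).elim 0 (fun y => dl y))

theorem opf_dl (f : Pt X → Option (Pt X)) (v : Pt X) :
    (opf f : Module.End K (MM X K)) (dl v) = (f v).elim 0 (fun y => dl y) := by
  simp [opf, dl]

open Classical in
/-- the partial function of an elementary operator: `act h p ↦ act h q` for `h ~ g`. -/
noncomputable def pf (g : List X) (q p : Pt X) (v : Pt X) : Option (Pt X) :=
  if H : ∃ h : List X, h.Perm g ∧ v = act h p then some (act H.choose q) else none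

theorem pf_act {g h : List X} (hg : h.Perm g) (q p : Pt X) : pf g q p (act h p) = some (act h q) := by
  have H : ∃ h' : List X, h'.Perm g ∧ act h p = act h' p := ⟨h, hg, rfl⟩
  unfold pf
  rw [dif_pos H]
  have := H.choose_spec.2
  rw [← act_left_inj this]

theorem pf_none {g : List X} {q p v : Pt X} (H : ¬ ∃ h : List X, h.Perm g ∧ v = act h p) :
    pf g q p v = none := by
  unfold pf
  rw [dif_neg H]

/-- elementary operator `act h p ↦ act h q` for `h ~ g`. -/
noncomputable def El (g : List X) (q p : Pt X) : Module.End K (MM X K) := opf (pf g q p)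

theorem El_act {g h : List X} (hg : h.Perm g) (q p : Pt X) :
    (El g q p : Module.End K (MM X K)) (dl (act h p)) = dl (act h q) := by
  rw [El, opf_dl, pf_act hg]; rfl

theorem El_none {g : List X} {q p v : Pt X} (H : ¬ ∃ h : List X, h.Perm g ∧ v = act h p) :
    (El g q p : Module.End K (MM X K)) (dl v) = 0 := by
  rw [El, opf_dl, pf_none H]; rfl

theorem co_El_ne {g : List X} {q p y v : Pt X} (H : co (El g q p : Module.End K (MM X K)) y v ≠ 0) :
    ∃ h : List X, h.Perm g ∧ v = act h p ∧ y = act h q := by
  by_cases h0 : ∃ h : List X, h.Perm g ∧ v = act h p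
  · obtain ⟨h, hg, rfl⟩ := h0
    refine ⟨h, hg, rfl, ?_⟩
    unfold co at H
    rw [El_act hg] at H
    by_contra h1
    exact H (by simp [dl, Finsupp.single_apply, Ne.symm h1])
  · unfold co at H
    rw [El_none h0] at H
    exact absurd rfl H

theorem co_El_act {g h : List X} (hg : h.Perm g) (q p : Pt X) :
    co (El g q p : Module.End K (MM X K)) (act h q) (act h p) = 1 := by
  unfold co
  rw [El_act hg]; simp [dl]

theorem Inv_El {g : List X} {q p : Pt X} (hr : Red q p) :
    Inv (El g q p : Module.End K (MM X K)) := by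
  have key : ∀ (k h : List X) (q' p' : Pt X), k.Perm h →
      co (El g q p : Module.End K (MM X K)) (act k q') (act k p') ≠ 0 →
      co (El g q p : Module.End K (MM X K)) (act k q') (act k p') = 1 ∧
      co (El g q p : Module.End K (MM X K)) (act h q') (act h p') = 1 := by
    intro k h q' p' hkh H
    obtain ⟨l, hl, e1, e2⟩ := co_El_ne H
    obtain ⟨l', rfl, rfl, rfl⟩ := prefix_of_red hr e1 e2
    rw [act_act, act_act, act_act, act_act]
    refine ⟨co_El_act hl _ _, co_El_act ?_ _ _⟩
    exact (hkh.symm.append_right _).trans hl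
  intro k h q' p' hkh
  by_cases H : co (El g q p : Module.End K (MM X K)) (act k q') (act k p') = 0
  · by_cases H' : co (El g q p : Module.End K (MM X K)) (act h q') (act h p') = 0
    · rw [H, H']
    · have := key h k q' p' hkh.symm H'
      rw [this.1, this.2]
  · have := key k h q' p' hkh H
    rw [this.1, this.2]

theorem El_dom_finite (g : List X) (q p : Pt X) :
    {v | (El g q p : Module.End K (MM X K)) (dl v) ≠ 0}.Finite := by
  apply ((finite_perm g).image (fun h => act h p)).subset
  intro v hv
  by_contra h0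
  apply hv
  apply El_none
  rintro ⟨h, hg, rfl⟩
  exact h0 ⟨h, hg, rfl⟩

theorem El_mem {g : List X} {q p : Pt X} (hr : Red q p) (hle : q ≤ p) :
    (El g q p : Module.End K (MM X K)) ∈ ringR X K := by
  refine ⟨?_, Inv_El hr, 0, ?_⟩
  · intro y v h
    obtain ⟨h, _, rfl, rfl⟩ := co_El_ne h
    exact (act_le_act_iff _ _ _).2 hle
  · simpa using El_dom_finite g q p

/-- projection onto a set of points -/
noncomputable def proj (V : Set (Pt X)) : Module.End K (MM X K) := by
  classical
  exact opf (fun v => if v ∈ V then some v else none)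

theorem proj_mem {V : Set (Pt X)} {v : Pt X} (h : v ∈ V) :
    (proj V : Module.End K (MM X K)) (dl v) = dl v := by
  classical
  simp [proj, opf_dl, h]

theorem proj_notMem {V : Set (Pt X)} {v : Pt X} (h : v ∉ V) :
    (proj V : Module.End K (MM X K)) (dl v) = 0 := by
  classical
  simp [proj, opf_dl, h]

/-- type-closed sets of points -/
def TyCl (V : Set (Pt X)) : Prop := ∀ u v, ty u = ty v → v ∈ V → u ∈ V

theorem proj_mem_ringR {V : Set (Pt X)} (hV : TyCl V) (hf : V.Finite) :
    (proj V : Module.End K (MM X K)) ∈ ringR X K := by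
  have hco : ∀ y v, v ∈ V → co (proj V : Module.End K (MM X K)) y v = if v = y then 1 else 0 := by
    intro y v hv
    unfold co
    rw [proj_mem hv]
    simp [dl, Finsupp.single_apply]
  have hco' : ∀ y v, v ∉ V → co (proj V : Module.End K (MM X K)) y v = 0 := by
    intro y v hv
    unfold co
    rw [proj_notMem hv]
    rfl
  refine ⟨?_, ?_, 0, ?_⟩
  · intro y v h
    by_cases hv : v ∈ V
    · rw [hco y v hv] at h
      by_cases h1 : v = y
      · exact h1.ge
      · simp [h1] at h
    · exact absurd (hco' y v hv) h
  · intro k h q p hkh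
    by_cases hv : act k p ∈ V
    · have hv' : act h p ∈ V := hV _ _ (ty_act hkh.symm p) hv
      rw [hco _ _ hv, hco _ _ hv']
      by_cases hqp : p = q
      · subst hqp; simp
      · rw [if_neg, if_neg]
        · exact fun h1 => hqp (act_injective _ h1)
        · exact fun h1 => hqp (act_injective _ h1)
    · have hv' : act h p ∉ V := fun h1 => hv (hV _ _ (ty_act hkh p) h1)
      rw [hco' _ _ hv, hco' _ _ hv']
  · apply hf.subset
    intro v hv
    by_contra h0
    apply hv
    rw [proj_notMem h0]; simp

/-- the class of points of the same type as `w` -/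
def cls (w : Pt X) : Set (Pt X) := {v | ty v = ty w}

theorem mem_cls {v w : Pt X} : v ∈ cls w ↔ ty v = ty w := Iff.rfl

theorem TyCl_cls (w : Pt X) : TyCl (cls w) := fun _ _ h1 h2 => h1.trans h2

theorem cls_finite (w : Pt X) : (cls w).Finite := finite_ty w

/-- every finite set of points is contained in a finite type-closed set. -/
theorem exists_TyCl {Z : Set (Pt X)} (hZ : Z.Finite) : ∃ V : Set (Pt X), V.Finite ∧ TyCl V ∧ Z ⊆ V := by
  refine ⟨⋃ z ∈ Z, cls z, hZ.biUnion (fun z _ => cls_finite z), ?_, ?_⟩
  · intro u v huv hv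
    simp only [Set.mem_iUnion] at hv ⊢
    obtain ⟨z, hz, hvz⟩ := hv
    exact ⟨z, hz, huv.trans hvz⟩
  · intro z hz
    simp only [Set.mem_iUnion]
    exact ⟨z, hz, rfl⟩

/-- the elementary ring elements -/
noncomputable def el (g : List X) {q p : Pt X} (hr : Red q p) (hle : q ≤ p) : RR X K :=
  ⟨El g q p, El_mem hr hle⟩

noncomputable def pr (V : Set (Pt X)) (hV : TyCl V) (hf : V.Finite) : RR X K :=
  ⟨proj V, proj_mem_ringR hV hf⟩

/-- type idempotent -/
noncomputable def ide (w : Pt X) : RR X K := pr (cls w) (TyCl_cls w) (cls_finite w)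

theorem ide_smul_of {v w : Pt X} (h : ty v = ty w) : (ide w : RR X K) • (dl v : MM X K) = dl v :=
  proj_mem h

theorem ide_smul_ne {v w : Pt X} (h : ty v ≠ ty w) : (ide w : RR X K) • (dl v : MM X K) = 0 :=
  proj_notMem h

end Pool.Agent.H2.Zg
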