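import Mathlib
import Pool.Agent.H2.Zg.Ring
import Pool.Agent.H2.Zg.Coh

set_option autoImplicit false
set_option linter.unusedSectionVars false
set_option linter.unusedSimpArgs false
set_option linter.deprecated false

namespace Pool.Agent.H2.Zg

open Pt

variable {X : Type} [LinearOrder X] {K : Type} [Field K]

/-- scalars are in the ring -/
noncomputable def scal (c : K) : RR X K := ⟨c • (1 : Module.End K (MM X K)), by
  refine ⟨?_, ?_, c, ?_⟩
  · intro y v h
    by_contra h0
    apply h
    have : y ≠ v := fun h1 => h0 h1.le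
    simp [co, dl, Ne.symm this]
  · intro k h q p hkh
    simp only [co, dl, LinearMap.smul_apply, Module.End.one_apply, Finsupp.smul_apply,
      Finsupp.single_apply]
    by_cases hqp : p = q
    · subst hqp; simp
    · rw [if_neg, if_neg]
      · exact fun h1 => hqp (act_injective _ h1)
      · exact fun h1 => hqp (act_injective _ h1)
  · simp⟩

theorem scal_smul (c : K) (m : MM X K) : (scal c : RR X K) • m = c • m := rfl

theorem K_smul_mem (N : Submodule (RR X K) (MM X K)) (c : K) {m : MM X K} (h : m ∈ N) :
    c • m ∈ N := N.smul_mem (scal c) h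

/-- If an operator sends each basis vector in the support of `x` into `N` then it sends `x`
into `N`. -/
theorem lin_mem (N : Submodule (RR X K) (MM X K)) (T : Module.End K (MM X K)) (x : MM X K)
    (h : ∀ u, x u ≠ 0 → T (dl u) ∈ N) : T x ∈ N := by
  have h1 : x = ∑ u ∈ x.support, x u • dl (K := K) u := by
    conv_lhs => rw [← Finsupp.sum_single x]
    apply Finset.sum_congr rfl
    intro u _
    simp [dl]
  rw [h1, map_sum]
  apply Submodule.sum_mem
  intro u hu
  rw [map_smul]
  exact K_smul_mem N _ (h u (by simpa using hu))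

theorem lin_mem' (N : Submodule (RR X K) (MM X K)) (x : MM X K)
    (h : ∀ u, x u ≠ 0 → dl u ∈ N) : x ∈ N := lin_mem N 1 x h

/-- lower basis vectors are reached -/
theorem exists_smul_eq {v w : Pt X} (h : v ≤ w) : ∃ r : RR X K, r • (dl w : MM X K) = dl v := by
  obtain ⟨g, q', p', h1, h2, hr⟩ := exists_red v w
  subst h1; subst h2
  rw [act_le_act_iff] at h
  exact ⟨el g hr h, El_act (List.Perm.refl g) _ _⟩

theorem dl_mem_span {v w : Pt X} (h : v ≤ w) :
    (dl v : MM X K) ∈ Submodule.span (RR X K) {(dl w : MM X K)} := by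
  obtain ⟨r, hr⟩ := exists_smul_eq (K := K) h
  exact Submodule.mem_span_singleton.2 ⟨r, hr⟩

theorem smul_support {r : RR X K} {v y : Pt X} (h : (r • (dl v : MM X K)) y ≠ 0) : y ≤ v :=
  r.2.1 y v h

theorem mem_span_dl {w : Pt X} {m : MM X K} :
    m ∈ Submodule.span (RR X K) {(dl w : MM X K)} ↔ ∀ v, m v ≠ 0 → v ≤ w := by
  constructor
  · intro h v hv
    obtain ⟨r, rfl⟩ := Submodule.mem_span_singleton.1 h
    exact smul_support hv
  · intro h
    exact lin_mem' _ _ (fun u hu => dl_mem_span (h u hu))

theorem dl_mem_span_iff {v w : Pt X} :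
    (dl v : MM X K) ∈ Submodule.span (RR X K) {(dl w : MM X K)} ↔ v ≤ w := by
  constructor
  · intro h
    exact mem_span_dl.1 h v (by simp [dl])
  · exact dl_mem_span

theorem dl_ne_zero (w : Pt X) : (dl w : MM X K) ≠ 0 := by simp [dl]

theorem span_dl_ne_bot (w : Pt X) : Submodule.span (RR X K) {(dl w : MM X K)} ≠ ⊥ := by
  rw [Ne, Submodule.span_singleton_eq_bot]
  exact dl_ne_zero w

theorem span_dl_le_iff {v w : Pt X} :
    Submodule.span (RR X K) {(dl v : MM X K)} ≤ Submodule.span (RR X K) {(dl w : MM X K)} ↔ v ≤ w := by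
  rw [Submodule.span_singleton_le_iff_mem, dl_mem_span_iff]

/-- leading points -/
theorem exists_top {m : MM X K} (h : m ≠ 0) : ∃ w, m w ≠ 0 ∧ ∀ v, m v ≠ 0 → v ≤ w := by
  have hne : m.support.Nonempty := Finsupp.support_nonempty_iff.2 h
  refine ⟨m.support.max' hne, ?_, ?_⟩
  · exact Finsupp.mem_support_iff.1 (m.support.max'_mem hne)
  · intro v hv
    exact m.support.le_max' v (Finsupp.mem_support_iff.2 hv)

/-- The leading basis vector lies in every submodule containing the element. -/
theorem dl_mem_of_top {N : Submodule (RR X K) (MM X K)} {m : MM X K} (hm : m ∈ N) {w : Pt X}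
    (hw : m w ≠ 0) (hmax : ∀ v, m v ≠ 0 → v ≤ w) : (dl w : MM X K) ∈ N := by
  have key : ∀ v ∈ cls w, v ≤ w → (dl v : MM X K) ∈ N := by
    intro v hv
    have wf := (cls_finite w).wellFoundedOn (r := (· < ·))
    refine wf.induction (P := fun v => v ≤ w → (dl v : MM X K) ∈ N) hv ?_
    intro v hv ih hvw
    obtain ⟨g, q', p', h1, h2, hr⟩ := exists_red v w
    have hle : q' ≤ p' := by rw [← act_le_act_iff g, ← h1, ← h2]; exact hvw
    let r : RR X K := el g hr hle
    have hrw : r • (dl w : MM X K) = dl v := by
      rw [h1, h2]; exact El_act (List.Perm.refl g) _ _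
    have hsplit : m = m w • dl w + m.erase w := by
      conv_lhs => rw [← Finsupp.single_add_erase w m]
      simp [dl]
    have h3 : r • m = m w • dl v + r • (m.erase w) := by
      conv_lhs => rw [hsplit, smul_add]
      rw [← hrw]
      congr 1
      exact map_smul (r : Module.End K (MM X K)) _ _
    have h4 : r • (m.erase w) ∈ N := by
      apply lin_mem N (r : Module.End K (MM X K))
      intro u hu
      have huw : u ≠ w := by rintro rfl; simp at hu
      have hmu : m u ≠ 0 := by rwa [Finsupp.erase_ne huw] at hu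
      have hult : u < w := lt_of_le_of_ne (hmax u hmu) huw
      by_cases H : ∃ h : List X, h.Perm g ∧ u = act h p'
      · obtain ⟨h, hg, rfl⟩ := H
        have e : (r : Module.End K (MM X K)) (dl (act h p')) = dl (act h q') := El_act hg _ _
        rw [e]
        rw [h2] at hult
        have hlt : h < g := lt_of_act_lt_act hg.length_eq hult
        have hlt' : act h q' < v := by
          rw [h1]; exact act_mono_left hg.length_eq hlt _ _
        apply ih _ _ hlt' (hlt'.le.trans hvw)
        show ty (act h q') = ty w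
        rw [ty_act hg, ← h1]; exact hv
      · have e : (r : Module.End K (MM X K)) (dl u) = 0 := El_none H
        rw [e]; exact N.zero_mem
    have h5 : m w • (dl v : MM X K) ∈ N := by
      have : m w • (dl v : MM X K) = r • m - r • (m.erase w) := by rw [h3]; abel
      rw [this]
      exact N.sub_mem (N.smul_mem _ hm) h4
    have := K_smul_mem N (m w)⁻¹ h5
    rwa [smul_smul, inv_mul_cancel₀ hw, one_smul] at this
  exact key w rfl le_rfl

/-- cyclic submodules are spanned by basis vectors -/
theorem span_eq_of_top {m : MM X K} {w : Pt X} (hw : m w ≠ 0) (hmax : ∀ v, m v ≠ 0 → v ≤ w) :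
    Submodule.span (RR X K) {m} = Submodule.span (RR X K) {(dl w : MM X K)} := by
  apply le_antisymm
  · rw [Submodule.span_singleton_le_iff_mem]
    exact mem_span_dl.2 hmax
  · rw [Submodule.span_singleton_le_iff_mem]
    exact dl_mem_of_top (Submodule.mem_span_singleton_self m) hw hmax

theorem cyclic_cases (m : MM X K) : m = 0 ∨ ∃ w, m w ≠ 0 ∧
    Submodule.span (RR X K) {m} = Submodule.span (RR X K) {(dl w : MM X K)} := by
  by_cases h : m = 0
  · exact Or.inl h
  · obtain ⟨w, h1, h2⟩ := exists_top h
    exact Or.inr ⟨w, h1, span_eq_of_top h1 h2⟩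

/-- f.g. submodules of `MM`. -/
theorem fg_cases {N : Submodule (RR X K) (MM X K)} (hN : N.FG) :
    N = ⊥ ∨ ∃ w, N = Submodule.span (RR X K) {(dl w : MM X K)} := by
  induction N, hN using Submodule.fg_induction with
  | singleton x =>
    rcases cyclic_cases x with h | ⟨w, _, h⟩
    · left; simp [h]
    · right; exact ⟨w, h⟩
  | sup A B _ _ hA hB =>
    rcases hA with hA | ⟨v, hA⟩
    · rw [hA, bot_sup_eq]; exact hB
    · rcases hB with hB | ⟨w, hB⟩
      · rw [hB, sup_bot_eq]; exact Or.inr ⟨v, hA⟩
      · right
        rcases le_total v w with h | h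
        · refine ⟨w, ?_⟩
          rw [hA, hB]
          exact sup_eq_right.2 (span_dl_le_iff.2 h)
        · refine ⟨v, ?_⟩
          rw [hA, hB]
          exact sup_eq_left.2 (span_dl_le_iff.2 h)

/-- `MM` is uniserial. -/
theorem uniserial (A B : Submodule (RR X K) (MM X K)) : A ≤ B ∨ B ≤ A := by
  by_cases h : A ≤ B
  · exact Or.inl h
  · right
    obtain ⟨m, hmA, hmB⟩ := SetLike.not_le_iff_exists.1 h
    intro m' hm'
    rcases cyclic_cases m with h1 | ⟨w, _, h1⟩
    · rw [h1] at hmB; exact absurd B.zero_mem hmB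
    rcases cyclic_cases m' with h2 | ⟨w', _, h2⟩
    · rw [h2]; exact A.zero_mem
    rcases le_total w w' with h3 | h3
    · exfalso
      apply hmB
      have h4 : Submodule.span (RR X K) {m} ≤ Submodule.span (RR X K) {m'} := by
        rw [h1, h2]; exact span_dl_le_iff.2 h3
      have h5 : m ∈ Submodule.span (RR X K) {m'} := h4 (Submodule.mem_span_singleton_self m)
      exact ((Submodule.span_singleton_le_iff_mem _ _).2 hm') h5
    · have h4 : Submodule.span (RR X K) {m'} ≤ Submodule.span (RR X K) {m} := by
        rw [h1, h2]; exact span_dl_le_iff.2 h3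
      have h5 : m' ∈ Submodule.span (RR X K) {m} := h4 (Submodule.mem_span_singleton_self m')
      exact ((Submodule.span_singleton_le_iff_mem _ _).2 hmA) h5

end Pool.Agent.H2.Zg
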