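import Mathlib
import Pool.Agent.H2.Zg.Mod

set_option autoImplicit false
set_option linter.unusedSectionVars false
set_option linter.unusedSimpArgs false
set_option linter.deprecated false

namespace Pool.Agent.H2.Zg

open Pt

/-- Two different lists of the same length differ before a longest common suffix. -/
theorem exists_suffix {X : Type} : ∀ (n : ℕ) (a b : List X), a.length = n → b.length = n → a ≠ b →
    ∃ (h : List X) (c : X) (k : List X) (d : X) (s : List X),
      a = (h ++ [c]) ++ s ∧ b = (k ++ [d]) ++ s ∧ c ≠ d := by
  intro n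
  induction n with
  | zero =>
    intro a b ha hb hab
    rw [List.length_eq_zero_iff] at ha hb
    exact absurd (ha.trans hb.symm) hab
  | succ n ih =>
    intro a b ha hb hab
    rcases List.eq_nil_or_concat a with rfl | ⟨a', x, rfl⟩
    · simp at ha
    rcases List.eq_nil_or_concat b with rfl | ⟨b', y, rfl⟩
    · simp at hb
    by_cases hxy : x = y
    · subst hxy
      have hab' : a' ≠ b' := fun e => hab (by rw [e])
      obtain ⟨h, c, k, d, s, h1, h2, h3⟩ := ih a' b' (by simpa using ha) (by simpa using hb) hab'
      exact ⟨h, c, k, d, s ++ [x], by rw [h1]; simp, by rw [h2]; simp, h3⟩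
    · exact ⟨a', x, b', y, [], by simp, by simp, hxy⟩

section
variable {X : Type}

theorem exists_suffix_pt {v w : Pt X} (hvw : ty v = ty w) (hne : v ≠ w) :
    ∃ (h : List X) (c : X) (k : List X) (d : X) (s : Pt X),
      v = act (h ++ [c]) s ∧ w = act (k ++ [d]) s ∧ c ≠ d ∧ (h ++ [c]).Perm (k ++ [d]) := by
  obtain ⟨hp, hl⟩ := ty_eq_iff.1 hvw
  have hne' : v.ini ≠ w.ini := by
    intro e
    exact hne (by ext1; exacts [e, hl])
  obtain ⟨h, c, k, d, s, h1, h2, h3⟩ :=
    exists_suffix w.ini.length v.ini w.ini (length_eq_of_ty hvw) rfl hne'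
  refine ⟨h, c, k, d, ⟨s, w.lst⟩, ?_, ?_, h3, ?_⟩
  · ext1
    · exact h1
    · exact hl
  · ext1
    · exact h2
    · rfl
  · rw [h1, h2] at hp
    exact (List.perm_append_right_iff s).1 hp

end

variable {X : Type} [LinearOrder X] {K : Type} [Field K]

/-- product with an invariant operator which preserves prefixes. -/
theorem Inv.mul' {T F : Module.End K (MM X K)} (iT : Inv T) (iF : Inv F)
    (hF : ∀ (k : List X) (p r : Pt X), co F r (act k p) ≠ 0 → ∃ r', r = act k r') :
    Inv (T * F) := by
  have key : ∀ (k : List X) (q p : Pt X), co (T * F) (act k q) (act k p) =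
      ∑ᶠ r', co F (act k r') (act k p) * co T (act k q) (act k r') := by
    intro k q p
    rw [co_mul]
    apply finsum_act
    intro r hr
    exact hF _ _ _ (left_ne_zero_of_mul hr)
  intro k h q p hkh
  rw [key, key]
  apply finsum_congr
  intro r'
  rw [iT k h q r' hkh, iF k h r' p hkh]

theorem act_snoc (h : List X) (c : X) (s : Pt X) : act (h ++ [c]) s = act h (act [c] s) := by
  rw [act_act]

theorem act_nil_pt (h : List X) (c : X) : act h (⟨[], c⟩ : Pt X) = ⟨h, c⟩ := by
  ext1 <;> simp

/-- the key factorisation through `κ`. -/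
theorem kappa {v w : Pt X} (hvw : ty v = ty w) (hne : v ≠ w) :
    ∃ κ : RR X K, κ • (dl w : MM X K) = 0 ∧ ∀ T : RR X K, T • (dl w : MM X K) = 0 →
      ∃ T' : RR X K, (T' * κ) • (dl v : MM X K) = T • (dl v : MM X K) ∧
        ∀ u : Pt X, (T' * κ) • (dl u : MM X K) = T • (dl u : MM X K) ∨
          (T' * κ) • (dl u : MM X K) = 0 := by
  obtain ⟨h, c, k, d, s, h1, h2, hcd, hp⟩ := exists_suffix_pt hvw hne
  have hle : (⟨[], c⟩ : Pt X) ≤ act [c] s := by
    have := (node_lt_act [] c s).le
    simpa using this
  let κ : RR X K := el h (red_single c (act [c] s)) hle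
  let F : Module.End K (MM X K) := El h (act [c] s) ⟨[], c⟩
  have hκ : (κ : Module.End K (MM X K)) = El h ⟨[], c⟩ (act [c] s) := rfl
  refine ⟨κ, ?_, ?_⟩
  · -- κ kills w
    show (κ : Module.End K (MM X K)) (dl w) = 0
    rw [hκ]
    apply El_none
    rintro ⟨h', hh', e⟩
    rw [h2, act_snoc] at e
    have e1 : k ++ ([d] ++ s.ini) = h' ++ ([c] ++ s.ini) := by
      have := congrArg Pt.ini e
      simpa using this
    have e2 : k.length = h'.length := by
      have := congrArg List.length e1
      simp at this
      omega
    have e3 := (List.append_inj e1 e2).2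
    simp at e3
    exact hcd e3.symm
  · intro T hT
    have hT0 : ∀ y, co (T : Module.End K (MM X K)) y w = 0 := by
      intro y
      show (T • (dl w : MM X K)) y = 0
      rw [hT]; rfl
    obtain ⟨t1, t2, t3⟩ := T.2
    have hFred : Red (act [c] s) (⟨[], c⟩ : Pt X) := (red_single c (act [c] s)).symm
    have hF : ∀ (k : List X) (p r : Pt X), co F r (act k p) ≠ 0 → ∃ r', r = act k r' := by
      intro k' p r hr
      obtain ⟨l, _, e1, e2⟩ := co_El_ne hr
      have e3 : l = k' ++ p.ini := by
        have := congrArg Pt.ini e1
        simpa using this.symm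
      exact ⟨act p.ini (act [c] s), by rw [e2, e3, ← act_act]⟩
    have hTF : ((T : Module.End K (MM X K)) * F) ∈ ringR X K := by
      refine ⟨?_, t2.mul' (Inv_El hFred) hF, 0, ?_⟩
      · -- triangular
        intro y v' hy
        have hdom : ∃ l : List X, l.Perm h ∧ v' = act l (⟨[], c⟩ : Pt X) := by
          by_contra h0
          apply hy
          show ((T : Module.End K (MM X K)) (F (dl v'))) y = 0
          have : F (dl v') = 0 := El_none h0
          rw [this, map_zero]; rfl
        obtain ⟨l, hl, rfl⟩ := hdom
        have hFl : F (dl (act l (⟨[], c⟩ : Pt X))) = dl (act l (act [c] s)) := El_act hl _ _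
        have hy' : co (T : Module.End K (MM X K)) y (act (l ++ [c]) s) ≠ 0 := by
          intro h0
          apply hy
          show ((T : Module.End K (MM X K)) (F (dl _))) y = 0
          rw [hFl, ← act_snoc]
          exact h0
        have hle1 := t1 _ _ hy'
        by_contra hlt
        rw [not_le, act_nil_pt] at hlt
        obtain ⟨y', rfl⟩ := node_between hlt hle1
        apply hy'
        have hperm : (l ++ [c]).Perm (k ++ [d]) := (hl.append_right _).trans hp
        rw [t2 _ _ y' s hperm, ← h2]
        exact hT0 _
      · apply (El_dom_finite (K := K) h (act [c] s) (⟨[], c⟩ : Pt X)).subset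
        intro u hu h0
        apply hu
        show (T : Module.End K (MM X K)) (F (dl u)) = _
        have : F (dl u) = 0 := h0
        rw [this]; simp
    refine ⟨⟨_, hTF⟩, ?_, ?_⟩
    · show (T : Module.End K (MM X K)) (F ((κ : Module.End K (MM X K)) (dl v))) = _
      rw [hκ, h1, act_snoc, El_act (List.Perm.refl h)]
      have : F (dl (act h (⟨[], c⟩ : Pt X))) = dl (act h (act [c] s)) :=
        El_act (List.Perm.refl h) _ _
      rw [this]; rfl
    · intro u
      by_cases hu : ∃ l : List X, l.Perm h ∧ u = act l (act [c] s)
      · left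
        obtain ⟨l, hl, rfl⟩ := hu
        show (T : Module.End K (MM X K)) (F ((κ : Module.End K (MM X K)) (dl _))) = _
        rw [hκ, El_act hl]
        have : F (dl (act l (⟨[], c⟩ : Pt X))) = dl (act l (act [c] s)) := El_act hl _ _
        rw [this]; rfl
      · right
        show (T : Module.End K (MM X K)) (F ((κ : Module.End K (MM X K)) (dl u))) = 0
        rw [hκ, El_none hu, map_zero, map_zero]

/-- equality of ring elements can be tested on basis vectors -/
theorem RR_ext {r s : RR X K} (h : ∀ v, r • (dl v : MM X K) = s • (dl v : MM X K)) : r = s := by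
  apply Subtype.ext
  exact ext_co h

theorem ann_fg (w : Pt X) :
    (LinearMap.ker (LinearMap.toSpanSingleton (RR X K) (MM X K) (dl w))).FG := by
  classical
  have hk : ∀ v : Pt X, ∃ κ : RR X K, κ • (dl w : MM X K) = 0 ∧ (ty v = ty w → v ≠ w →
      ∀ T : RR X K, T • (dl w : MM X K) = 0 →
      ∃ T' : RR X K, (T' * κ) • (dl v : MM X K) = T • (dl v : MM X K) ∧
        ∀ u : Pt X, (T' * κ) • (dl u : MM X K) = T • (dl u : MM X K) ∨
          (T' * κ) • (dl u : MM X K) = 0) := by
    intro v
    by_cases h : ty v = ty w ∧ v ≠ w
    · obtain ⟨κ, h1, h2⟩ := kappa (K := K) h.1 h.2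
      exact ⟨κ, h1, fun _ _ => h2⟩
    · exact ⟨0, by simp, fun h1 h2 => absurd ⟨h1, h2⟩ h⟩
  choose κ hκ1 hκ2 using hk
  let C : Finset (Pt X) := (cls_finite w).toFinset
  have hC : ∀ v, v ∈ C ↔ ty v = ty w := by intro v; simp [C, mem_cls]
  let S : Finset (RR X K) := insert (1 - ide w) (C.image κ)
  refine ⟨S, ?_⟩
  apply le_antisymm
  · rw [Submodule.span_le]
    intro r hr
    simp only [S, Finset.coe_insert, Finset.coe_image, Set.mem_insert_iff, Set.mem_image,
      Finset.mem_coe] at hr
    show r ∈ LinearMap.ker _
    rw [LinearMap.mem_ker, LinearMap.toSpanSingleton_apply]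
    rcases hr with rfl | ⟨v, _, rfl⟩
    · rw [sub_smul, one_smul, ide_smul_of rfl, sub_self]
    · exact hκ1 v
  · -- main part
    have main : ∀ (n : ℕ) (T : RR X K), T • (dl w : MM X K) = 0 →
        (∀ u, ty u ≠ ty w → T • (dl u : MM X K) = 0) →
        (C.filter (fun u => T • (dl u : MM X K) ≠ 0)).card = n →
        T ∈ Submodule.span (RR X K) (S : Set (RR X K)) := by
      intro n
      induction n using Nat.strong_induction_on with
      | _ n ih =>
        intro T hT hT' hn
        by_cases h0 : ∃ v, T • (dl v : MM X K) ≠ 0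
        · obtain ⟨v, hv⟩ := h0
          have hvt : ty v = ty w := by
            by_contra h1; exact hv (hT' v h1)
          have hvw : v ≠ w := by rintro rfl; exact hv hT
          obtain ⟨T', h1, h2⟩ := hκ2 v hvt hvw T hT
          have hmem : T' * κ v ∈ Submodule.span (RR X K) (S : Set (RR X K)) := by
            have : κ v ∈ Submodule.span (RR X K) (S : Set (RR X K)) := by
              apply Submodule.subset_span
              simp only [S, Finset.coe_insert, Finset.coe_image, Set.mem_insert_iff,
                Set.mem_image, Finset.mem_coe]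
              exact Or.inr ⟨v, (hC v).2 hvt, rfl⟩
            exact Submodule.smul_mem _ T' this
          have hT2 : T - T' * κ v ∈ Submodule.span (RR X K) (S : Set (RR X K)) := by
            refine ih _ ?_ (T - T' * κ v) ?_ ?_ rfl
            · rw [← hn]
              apply Finset.card_lt_card
              refine ⟨?_, ?_⟩
              · intro u hu
                rw [Finset.mem_filter] at hu ⊢
                refine ⟨hu.1, ?_⟩
                intro h3
                apply hu.2
                rw [sub_smul, h3, zero_sub, neg_eq_zero]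
                rcases h2 u with h4 | h4
                · rw [h4, h3]
                · exact h4
              · intro hsub
                have : v ∈ C.filter (fun u => T • (dl u : MM X K) ≠ 0) := by
                  rw [Finset.mem_filter]; exact ⟨(hC v).2 hvt, hv⟩
                have := hsub this
                rw [Finset.mem_filter] at this
                apply this.2
                rw [sub_smul, h1, sub_self]
            · rw [sub_smul, hT, zero_sub, neg_eq_zero]
              rcases h2 w with h4 | h4
              · rw [h4, hT]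
              · exact h4
            · intro u hu
              rw [sub_smul, hT' u hu, zero_sub, neg_eq_zero]
              rcases h2 u with h4 | h4
              · rw [h4, hT' u hu]
              · exact h4
          have : T = (T - T' * κ v) + T' * κ v := by abel
          rw [this]
          exact Submodule.add_mem _ hT2 hmem
        · push Not at h0
          have : T = 0 := by
            apply RR_ext
            intro v
            rw [h0 v, zero_smul]
          rw [this]; exact Submodule.zero_mem _
    intro r hr
    rw [LinearMap.mem_ker, LinearMap.toSpanSingleton_apply] at hr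
    have e : r = r * (1 - ide w) + r * ide w := by rw [mul_sub, mul_one]; abel
    rw [e]
    apply Submodule.add_mem
    · apply Submodule.smul_mem
      apply Submodule.subset_span
      simp [S]
    · apply main _ (r * ide w) ?_ ?_ rfl
      · rw [mul_smul, ide_smul_of rfl, hr]
      · intro u hu
        rw [mul_smul, ide_smul_ne hu, smul_zero]

theorem fp_span_dl (w : Pt X) :
    Module.FinitePresentation (RR X K) (Submodule.span (RR X K) {(dl w : MM X K)}) :=
  fp_span_singleton _ (ann_fg w)

theorem PCoh_MM : PCoh (RR X K) (MM X K) := by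
  intro N hN
  rcases fg_cases hN with rfl | ⟨w, rfl⟩
  · infer_instance
  · exact fp_span_dl w

/-- For finitely many ring elements there is a finite type-closed set of points outside which they
are scalar and inside which they stay. -/
def Adapted (V : Set (Pt X)) (T : RR X K) : Prop :=
  ∃ c : K, (∀ v, v ∉ V → T • (dl v : MM X K) = c • dl v) ∧
    ∀ v ∈ V, ∀ y, (T • (dl v : MM X K)) y ≠ 0 → y ∈ V

theorem Adapted.mono {V W : Set (Pt X)} {T : RR X K} (h : Adapted V T) (hVW : V ⊆ W) :
    Adapted W T := by
  obtain ⟨c, h1, h2⟩ := h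
  refine ⟨c, fun v hv => h1 v (fun h3 => hv (hVW h3)), ?_⟩
  intro v hv y hy
  by_cases h3 : v ∈ V
  · exact hVW (h2 v h3 y hy)
  · rw [h1 v h3] at hy
    have : y = v := by
      by_contra h4
      apply hy
      simp [dl, Finsupp.single_apply, Ne.symm h4]
    rw [this]; exact hv

theorem exists_adapted_one (T : RR X K) : ∃ V : Set (Pt X), V.Finite ∧ TyCl V ∧ Adapted V T := by
  obtain ⟨_, _, c, hc⟩ := T.2
  let Z : Set (Pt X) := {v | (T : Module.End K (MM X K)) (dl v) ≠ c • dl v}
  let Z' : Set (Pt X) := Z ∪ ⋃ v ∈ Z, {y | (T • (dl v : MM X K)) y ≠ 0}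
  have hZ' : Z'.Finite := by
    apply hc.union
    apply hc.biUnion
    intro v _
    exact (T • (dl v : MM X K)).finite_support
  obtain ⟨V, hV1, hV2, hV3⟩ := exists_TyCl hZ'
  refine ⟨V, hV1, hV2, c, ?_, ?_⟩
  · intro v hv
    by_contra h0
    exact hv (hV3 (Or.inl h0))
  · intro v hv y hy
    by_cases h0 : v ∈ Z
    · apply hV3
      right
      simp only [Set.mem_iUnion]
      exact ⟨v, h0, hy⟩
    · have h1 : T • (dl v : MM X K) = c • dl v := by
        by_contra h2; exact h0 h2
      rw [h1] at hy
      have : y = v := by
        by_contra h4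
        apply hy
        simp [dl, Finsupp.single_apply, Ne.symm h4]
      rw [this]; exact hv

theorem exists_adapted (S : Finset (RR X K)) : ∃ V : Set (Pt X), V.Finite ∧ TyCl V ∧
    ∀ T ∈ S, Adapted V T := by
  classical
  choose V h1 h2 h3 using exists_adapted_one (X := X) (K := K)
  refine ⟨⋃ T ∈ S, V T, ?_, ?_, ?_⟩
  · apply Set.Finite.biUnion S.finite_toSet
    intro T _
    exact h1 T
  · intro u v huv hv
    simp only [Set.mem_iUnion] at hv ⊢
    obtain ⟨T, hT, hv⟩ := hv
    exact ⟨T, hT, h2 T u v huv hv⟩
  · intro T hT
    apply (h3 T).mono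
    intro v hv
    simp only [Set.mem_iUnion]
    exact ⟨T, hT, hv⟩

/-- The dichotomy for f.g. left ideals. -/
theorem ideal_cases (I : Submodule (RR X K) (RR X K)) (hI : I.FG) :
    ∃ (V : Set (Pt X)) (hf : V.Finite) (hV : TyCl V),
      ((1 : RR X K) - pr V hV hf ∈ I) ∨ (∀ T ∈ I, T = T * pr V hV hf) := by
  obtain ⟨S, rfl⟩ := hI
  obtain ⟨V, hf, hV, hS⟩ := exists_adapted S
  refine ⟨V, hf, hV, ?_⟩
  by_cases h : ∃ T ∈ S, ∃ v ∉ V, T • (dl v : MM X K) ≠ 0
  · left
    obtain ⟨T, hTS, v, hv, hTv⟩ := h
    obtain ⟨c, h1, h2⟩ := hS T hTS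
    have hc : c ≠ 0 := by
      rintro rfl
      apply hTv
      rw [h1 v hv, zero_smul]
    have e : (1 : RR X K) - pr V hV hf = scal c⁻¹ * (1 - pr V hV hf) * T := by
      apply RR_ext
      intro u
      rw [mul_smul, mul_smul, scal_smul]
      by_cases hu : u ∈ V
      · have h3 : (1 - pr V hV hf : RR X K) • (dl u : MM X K) = 0 := by
          rw [sub_smul, one_smul]
          have : (pr V hV hf : RR X K) • (dl u : MM X K) = dl u := proj_mem hu
          rw [this, sub_self]
        have h4 : (1 - pr V hV hf : RR X K) • (T • (dl u : MM X K)) = 0 := by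
          have := lin_mem ⊥ ((1 - pr V hV hf : RR X K) : Module.End K (MM X K))
            (T • (dl u : MM X K)) ?_
          · exact this
          · intro y hy
            have hyV := h2 u hu y hy
            show (1 - pr V hV hf : RR X K) • (dl y : MM X K) = 0
            rw [sub_smul, one_smul]
            have : (pr V hV hf : RR X K) • (dl y : MM X K) = dl y := proj_mem hyV
            rw [this, sub_self]
        rw [h3, h4, smul_zero]
      · have h3 : (1 - pr V hV hf : RR X K) • (dl u : MM X K) = dl u := by
          rw [sub_smul, one_smul]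
          have : (pr V hV hf : RR X K) • (dl u : MM X K) = 0 := proj_notMem hu
          rw [this, sub_zero]
        rw [h1 u hu]
        have h5 : (1 - pr V hV hf : RR X K) • (c • (dl u : MM X K)) =
            c • ((1 - pr V hV hf : RR X K) • (dl u : MM X K)) :=
          map_smul ((1 - pr V hV hf : RR X K) : Module.End K (MM X K)) c (dl u)
        rw [h5, h3, smul_smul, inv_mul_cancel₀ hc, one_smul]
    rw [e]
    exact Submodule.smul_mem _ _ (Submodule.subset_span hTS)
  · right
    push Not at h
    intro T hT
    have h1 : ∀ v ∉ V, T • (dl v : MM X K) = 0 := by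
      intro v hv
      induction hT using Submodule.span_induction with
      | mem x hx => exact h x hx v hv
      | zero => simp
      | add x y _ _ hx hy => rw [add_smul, hx, hy, add_zero]
      | smul a x _ hx => rw [smul_eq_mul, mul_smul, hx, smul_zero]
    apply RR_ext
    intro u
    rw [mul_smul]
    by_cases hu : u ∈ V
    · have : (pr V hV hf : RR X K) • (dl u : MM X K) = dl u := proj_mem hu
      rw [this]
    · have : (pr V hV hf : RR X K) • (dl u : MM X K) = 0 := proj_notMem hu
      rw [this, smul_zero, h1 u hu]

/-- `RR` is left coherent. -/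
theorem PCoh_RR : PCoh (RR X K) (RR X K) := by
  intro I hI
  obtain ⟨V, hf, hV, hcase⟩ := ideal_cases I hI
  have : Finite V := hf
  let ev : RR X K →ₗ[RR X K] (V → MM X K) :=
    LinearMap.pi (fun v => LinearMap.toSpanSingleton (RR X K) (MM X K) (dl (v : Pt X)))
  have hker : ∀ T : RR X K, T ∈ LinearMap.ker ev ↔ T * pr V hV hf = 0 := by
    intro T
    rw [LinearMap.mem_ker]
    constructor
    · intro h
      apply RR_ext
      intro u
      rw [mul_smul, zero_smul]
      by_cases hu : u ∈ V
      · have : (pr V hV hf : RR X K) • (dl u : MM X K) = dl u := proj_mem hu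
        rw [this]
        exact congrFun h ⟨u, hu⟩
      · have : (pr V hV hf : RR X K) • (dl u : MM X K) = 0 := proj_notMem hu
        rw [this, smul_zero]
    · intro h
      funext v
      show T • (dl (v : Pt X) : MM X K) = 0
      have : (pr V hV hf : RR X K) • (dl (v : Pt X) : MM X K) = dl (v : Pt X) := proj_mem v.2
      rw [← this, ← mul_smul, h, zero_smul]
  have h1 : Module.FinitePresentation (RR X K) (I.map ev) := (PCoh_MM.pi) _ (hI.map ev)
  apply fp_of_ext ev I h1
  have hidem : pr V hV hf * pr V hV hf = (pr V hV hf : RR X K) := by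
    apply RR_ext
    intro u
    rw [mul_smul]
    by_cases hu : u ∈ V
    · have : (pr V hV hf : RR X K) • (dl u : MM X K) = dl u := proj_mem hu
      rw [this, this]
    · have : (pr V hV hf : RR X K) • (dl u : MM X K) = 0 := proj_notMem hu
      rw [this, smul_zero]
  rcases hcase with h | h
  · have e : I ⊓ LinearMap.ker ev = Submodule.span (RR X K) {(1 - pr V hV hf : RR X K)} := by
      ext T
      rw [Submodule.mem_inf, hker, Submodule.mem_span_singleton]
      constructor
      · rintro ⟨_, h2⟩
        exact ⟨T, by rw [smul_eq_mul, mul_sub, h2, mul_one, sub_zero]⟩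
      · rintro ⟨a, rfl⟩
        refine ⟨I.smul_mem _ h, ?_⟩
        rw [smul_eq_mul, mul_assoc, sub_mul, one_mul, hidem, sub_self, mul_zero]
    rw [e]
    apply fp_span_singleton
    refine ⟨{pr V hV hf}, ?_⟩
    ext T
    rw [Finset.coe_singleton, Submodule.mem_span_singleton, LinearMap.mem_ker,
      LinearMap.toSpanSingleton_apply]
    constructor
    · rintro ⟨a, rfl⟩
      rw [smul_eq_mul, smul_eq_mul, mul_assoc, mul_sub, mul_one, hidem, sub_self, mul_zero]
    · intro h2
      rw [smul_eq_mul, mul_sub, mul_one, sub_eq_zero] at h2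
      exact ⟨T, by rw [smul_eq_mul]; exact h2.symm⟩
  · have e : I ⊓ LinearMap.ker ev = ⊥ := by
      rw [eq_bot_iff]
      intro T hT
      rw [Submodule.mem_inf, hker] at hT
      rw [Submodule.mem_bot, h T hT.1, hT.2]
    rw [e]
    infer_instance

end Pool.Agent.H2.Zg
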