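import Mathlib
import Pool.Agent.H2.Zg.Coh

set_option autoImplicit false
set_option linter.unusedSectionVars false
set_option linter.deprecated false

namespace Pool.Agent.H2.Zg

/-! Injective modules: complements, hulls, opens. Everything in universe `0`. -/

variable {R : Type} [Ring R]

section
variable {M : Type} [AddCommGroup M] [Module R M]

/-- Zorn: enlarge `B` maximally disjoint from `A`. -/
theorem exists_max_disj (A B : Submodule R M) (h : A ⊓ B = ⊥) :
    ∃ L : Submodule R M, B ≤ L ∧ A ⊓ L = ⊥ ∧ ∀ L', L ≤ L' → A ⊓ L' = ⊥ → L' = L := by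
  obtain ⟨L, hBL, hL⟩ := zorn_le_nonempty₀ {L : Submodule R M | A ⊓ L = ⊥} (by
    intro c hc hchain y hy
    refine ⟨sSup c, ?_, fun z hz => le_sSup hz⟩
    show A ⊓ sSup c = ⊥
    rw [eq_bot_iff]
    rintro x ⟨hxA, hxs⟩
    have hdir : DirectedOn (· ≤ ·) c := hchain.directedOn
    rw [SetLike.mem_coe, Submodule.mem_sSup_of_directed ⟨y, hy⟩ hdir] at hxs
    obtain ⟨z, hz, hxz⟩ := hxs
    have h1 : A ⊓ z = ⊥ := hc hz
    rw [← h1]
    exact ⟨hxA, hxz⟩) B h
  exact ⟨L, hBL, hL.prop, fun L' h1 h2 => (hL.eq_of_ge h2 h1)⟩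

/-- A hom from a submodule to an injective extends. -/
theorem extend_sub {E : Type} [AddCommGroup E] [Module R E] (hE : Module.Injective R E)
    (A : Submodule R M) (g : A →ₗ[R] E) : ∃ h : M →ₗ[R] E, ∀ x : A, h x = g x := by
  obtain ⟨h, hh⟩ := hE.out A.subtype A.injective_subtype g
  exact ⟨h, hh⟩

end

/-- Complements in injective modules. -/
theorem exists_compl {I : Type} [AddCommGroup I] [Module R I] (hI : Module.Injective R I)
    (A B : Submodule R I) (h : A ⊓ B = ⊥) :
    ∃ E L : Submodule R I, A ≤ E ∧ B ≤ L ∧ IsCompl E L ∧ ∀ Y ≤ E, Y ⊓ A = ⊥ → Y = ⊥ := by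
  obtain ⟨L, hBL, hAL, hLmax⟩ := exists_max_disj A B h
  have hLA : L ⊓ A = ⊥ := by rw [inf_comm]; exact hAL
  obtain ⟨E, hAE, hLE, hEmax⟩ := exists_max_disj L A hLA
  -- A is essential in E
  have hess : ∀ Y ≤ E, Y ⊓ A = ⊥ → Y = ⊥ := by
    intro Y hYE hYA
    have h1 : A ⊓ (L ⊔ Y) = ⊥ := by
      rw [eq_bot_iff]
      rintro a ⟨haA, hs⟩
      obtain ⟨l, hl, y, hy, hly⟩ := Submodule.mem_sup.1 hs
      have h2 : l ∈ L ⊓ E := by
        refine ⟨hl, ?_⟩
        have : l = a - y := by rw [← hly]; abel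
        rw [this]
        exact E.sub_mem (hAE haA) (hYE hy)
      rw [hLE] at h2
      have h3 : l = 0 := h2
      rw [h3, zero_add] at hly
      have h4 : a ∈ Y ⊓ A := ⟨by rw [← hly]; exact hy, haA⟩
      rw [hYA] at h4
      exact h4
    have h2 := hLmax (L ⊔ Y) le_sup_left h1
    have h3 : Y ≤ L := by rw [← h2]; exact le_sup_right
    rw [eq_bot_iff, ← hLE]
    exact le_inf h3 hYE
  -- the map I/L → I extending E → I
  let f : E →ₗ[R] (I ⧸ L) := L.mkQ ∘ₗ E.subtype
  have hf : Function.Injective f := by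
    rw [← LinearMap.ker_eq_bot, eq_bot_iff]
    rintro ⟨x, hx⟩ hx0
    have h1 : x ∈ L := by
      have : L.mkQ x = 0 := hx0
      simpa using this
    have h2 : x ∈ L ⊓ E := ⟨h1, hx⟩
    rw [hLE] at h2
    have : x = 0 := h2
    subst this
    rfl
  obtain ⟨φ, hφ⟩ := hI.out f hf E.subtype
  have hφ' : ∀ x ∈ E, φ (L.mkQ x) = x := fun x hx => hφ ⟨x, hx⟩
  have hφinj : ∀ x : I, φ (L.mkQ x) = 0 → x ∈ L := by
    -- kernel of φ ∘ mkQ
    let W : Submodule R I := LinearMap.ker (φ ∘ₗ L.mkQ)
    have hLW : L ≤ W := by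
      intro x hx
      show φ (L.mkQ x) = 0
      have : L.mkQ x = 0 := by simpa using hx
      rw [this, map_zero]
    have hWA : A ⊓ W = ⊥ := by
      rw [eq_bot_iff]
      rintro a ⟨haA, haW⟩
      have h1 : φ (L.mkQ a) = 0 := haW
      rw [hφ' a (hAE haA)] at h1
      exact h1
    have := hLmax W hLW hWA
    intro x hx
    rw [← this]
    exact hx
  let E' : Submodule R I := LinearMap.range φ
  have hEE' : E ≤ E' := by
    intro x hx
    exact ⟨L.mkQ x, hφ' x hx⟩
  have hLE' : L ⊓ E' = ⊥ := by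
    -- the elements of L in the image of φ
    let Y : Submodule R I := (L ⊓ E')
    -- Y's preimage
    let W : Submodule R I := (Y.comap (φ ∘ₗ L.mkQ)) 
    have hWA : A ⊓ W = ⊥ := by
      rw [eq_bot_iff]
      rintro a ⟨haA, haW⟩
      have h1 : φ (L.mkQ a) ∈ Y := haW
      rw [hφ' a (hAE haA)] at h1
      have h2 : a ∈ L ⊓ E := ⟨h1.1, hAE haA⟩
      rw [hLE] at h2
      exact h2
    have hLW : L ≤ W := by
      intro x hx
      show φ (L.mkQ x) ∈ Y
      have : L.mkQ x = 0 := by simpa using hx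
      rw [this, map_zero]
      exact Y.zero_mem
    have hW := hLmax W hLW hWA
    rw [eq_bot_iff]
    rintro y ⟨hyL, hyE'⟩
    obtain ⟨z, hz⟩ := hyE'
    obtain ⟨x, rfl⟩ := L.mkQ_surjective z
    have hxW : x ∈ W := by
      show φ (L.mkQ x) ∈ Y
      rw [hz]
      exact ⟨hyL, ⟨_, hz⟩⟩
    rw [hW] at hxW
    have : L.mkQ x = 0 := by simpa using hxW
    rw [this, map_zero] at hz
    rw [← hz]; exact Submodule.zero_mem _
  have hE'E := hEmax E' hEE' hLE'
  refine ⟨E, L, hAE, hBL, ⟨?_, ?_⟩, hess⟩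
  · rw [disjoint_iff, inf_comm]; exact hLE
  · rw [codisjoint_iff, eq_top_iff]
    intro x _
    have h1 : φ (L.mkQ x) ∈ E := by rw [← hE'E]; exact ⟨_, rfl⟩
    have h2 : φ (L.mkQ (x - φ (L.mkQ x))) = 0 := by
      rw [map_sub, map_sub, hφ' _ h1, sub_self]
    have h3 := hφinj _ h2
    rw [Submodule.mem_sup]
    exact ⟨_, h1, _, h3, by abel⟩

/-- indecomposable -/
def Indec (R : Type) [Ring R] (N : Type) [AddCommGroup N] [Module R N] : Prop :=
  Nontrivial N ∧ ∀ P Q : Submodule R N, IsCompl P Q → P = ⊥ ∨ Q = ⊥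

/-- indecomposable injectives are uniform -/
theorem uniform_of_indec {E : Type} [AddCommGroup E] [Module R E] (hE : Module.Injective R E)
    (hi : Indec R E) (A B : Submodule R E) (hA : A ≠ ⊥) (hB : B ≠ ⊥) : A ⊓ B ≠ ⊥ := by
  intro h
  obtain ⟨P, Q, hAP, hBQ, hc, _⟩ := exists_compl hE A B h
  rcases hi.2 P Q hc with h1 | h1
  · exact hA (eq_bot_iff.2 (h1 ▸ hAP))
  · exact hB (eq_bot_iff.2 (h1 ▸ hBQ))

/-- retract of injective is injective -/
theorem injective_of_retract {I N : Type} [AddCommGroup I] [Module R I] [AddCommGroup N]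
    [Module R N] (hI : Module.Injective R I) (i : N →ₗ[R] I) (p : I →ₗ[R] N)
    (h : ∀ x, p (i x) = x) : Module.Injective R N := by
  constructor
  intro U V _ _ _ _ f hf g
  obtain ⟨k, hk⟩ := hI.out f hf (i ∘ₗ g)
  refine ⟨p ∘ₗ k, ?_⟩
  intro x
  rw [LinearMap.comp_apply, hk, LinearMap.comp_apply, h]

theorem exists_inj_emb (J : Type) [AddCommGroup J] [Module R J] :
    ∃ (I : Type) (_ : AddCommGroup I) (_ : Module R I) (j : J →ₗ[R] I),
      Module.Injective R I ∧ Function.Injective j := by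
  obtain ⟨P⟩ := CategoryTheory.EnoughInjectives.presentation (ModuleCat.of R J)
  have h1 : CategoryTheory.Injective P.J := P.injective
  have h2 : CategoryTheory.Mono P.f := P.mono
  refine ⟨P.J, inferInstance, inferInstance, P.f.hom, ?_, ?_⟩
  · have : CategoryTheory.Injective (ModuleCat.of R P.J) := h1
    exact Module.injective_module_of_injective_object R P.J
  · exact (ModuleCat.mono_iff_injective P.f).1 h2

/-- every uniform nonzero module embeds in an indecomposable injective. -/
theorem exists_hull (J : Type) [AddCommGroup J] [Module R J] [Nontrivial J]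
    (hu : ∀ A B : Submodule R J, A ≠ ⊥ → B ≠ ⊥ → A ⊓ B ≠ ⊥) :
    ∃ (E : Type) (_ : AddCommGroup E) (_ : Module R E) (j : J →ₗ[R] E),
      Module.Injective R E ∧ Indec R E ∧ Function.Injective j := by
  obtain ⟨I, _, _, j, hI, hj⟩ := exists_inj_emb (R := R) J
  obtain ⟨E, L, hAE, _, hc, hess⟩ := exists_compl hI (LinearMap.range j) ⊥ (by simp)
  have hE : Module.Injective R E := by
    apply injective_of_retract hI E.subtype (Submodule.linearProjOfIsCompl E L hc)
    intro x
    exact Submodule.linearProjOfIsCompl_apply_left hc x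
  let j' : J →ₗ[R] E := j.codRestrict E (fun x => hAE ⟨x, rfl⟩)
  have hj' : Function.Injective j' := by
    intro x y hxy
    apply hj
    exact congrArg Subtype.val hxy
  refine ⟨E, inferInstance, inferInstance, j', hE, ⟨?_, ?_⟩, hj'⟩
  · exact hj'.nontrivial
  · intro P Q hPQ
    by_contra hne
    push Not at hne
    have key : ∀ P : Submodule R E, P ≠ ⊥ → P.comap j' ≠ ⊥ := by
      intro P hP h0
      apply hP
      have h1 := hess (P.map E.subtype) (Submodule.map_subtype_le E P) (by
        rw [eq_bot_iff]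
        rintro x ⟨hx1, ⟨y, rfl⟩⟩
        obtain ⟨z, hz, hzy⟩ := hx1
        have : z = j' y := Subtype.ext hzy
        have hy : y ∈ P.comap j' := by
          show j' y ∈ P
          rw [← this]; exact hz
        rw [h0] at hy
        have : y = 0 := hy
        rw [this, map_zero]; exact Submodule.zero_mem _)
      rw [eq_bot_iff]
      intro x hx
      have h2 : E.subtype x ∈ P.map E.subtype := ⟨x, hx, rfl⟩
      rw [h1] at h2
      have h3 : E.subtype x = 0 := h2
      exact E.injective_subtype (by rw [h3, map_zero])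
    apply hu _ _ (key P hne.1) (key Q hne.2)
    rw [← Submodule.comap_inf, hPQ.inf_eq_bot]
    rw [eq_bot_iff]
    intro x hx
    have : j' x = 0 := hx
    exact hj' (by rw [this, map_zero])

/-- opens for injectives -/
theorem open_iff {E F G : Type} [AddCommGroup E] [Module R E] (hE : Module.Injective R E)
    [AddCommGroup F] [Module R F] [AddCommGroup G] [Module R G] (f : F →ₗ[R] G) :
    (∃ g : F →ₗ[R] E, ∀ h : G →ₗ[R] E, h ∘ₗ f ≠ g) ↔ ∃ k : LinearMap.ker f →ₗ[R] E, k ≠ 0 := by
  constructor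
  · rintro ⟨g, hg⟩
    refine ⟨g ∘ₗ (LinearMap.ker f).subtype, ?_⟩
    intro h0
    have hle : LinearMap.ker f ≤ LinearMap.ker g := by
      intro x hx
      have := LinearMap.congr_fun h0 ⟨x, hx⟩
      exact this
    -- factor through the range
    let q : (F ⧸ LinearMap.ker f) →ₗ[R] G := (LinearMap.ker f).liftQ f le_rfl
    have hq : Function.Injective q := by
      rw [← LinearMap.ker_eq_bot]
      exact Submodule.ker_liftQ_eq_bot _ _ _ le_rfl
    let g' : (F ⧸ LinearMap.ker f) →ₗ[R] E := (LinearMap.ker f).liftQ g hle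
    obtain ⟨h, hh⟩ := hE.out q hq g'
    apply hg h
    ext x
    have := hh ((LinearMap.ker f).mkQ x)
    simpa [q, g'] using this
  · rintro ⟨k, hk⟩
    obtain ⟨g, hg⟩ := extend_sub hE (LinearMap.ker f) k
    refine ⟨g, ?_⟩
    intro h hh
    apply hk
    ext ⟨x, hx⟩
    rw [← hg ⟨x, hx⟩, ← hh]
    have : f x = 0 := hx
    simp [this]

/-- The frozen statement's purity. -/
def FPure {A B : Type} [AddCommGroup A] [Module R A] [AddCommGroup B] [Module R B]
    (u : A →ₗ[R] B) : Prop :=
  ∀ (F G : Type) [AddCommGroup F] [Module R F] [AddCommGroup G] [Module R G]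
    [Module.FinitePresentation R F] [Module.FinitePresentation R G]
    (f : F →ₗ[R] G) (a : F →ₗ[R] A) (b : G →ₗ[R] B),
    b ∘ₗ f = u ∘ₗ a → ∃ c : G →ₗ[R] A, c ∘ₗ f = a

theorem FPure.injective {A B : Type} [AddCommGroup A] [Module R A] [AddCommGroup B] [Module R B]
    {u : A →ₗ[R] B} (h : FPure u) : Function.Injective u := by
  rw [← LinearMap.ker_eq_bot, eq_bot_iff]
  intro x hx
  have hx' : u x = 0 := hx
  obtain ⟨c, hc⟩ := h R PUnit (0 : R →ₗ[R] PUnit) (LinearMap.toSpanSingleton R A x)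
    (0 : PUnit →ₗ[R] B) (by
      ext
      simp [hx'])
  have := LinearMap.congr_fun hc 1
  simpa using this.symm

/-- injective modules are pure-injective -/
theorem pureInj_of_injective {N : Type} [AddCommGroup N] [Module R N] (hN : Module.Injective R N)
    {A B : Type} [AddCommGroup A] [Module R A] [AddCommGroup B] [Module R B]
    (u : A →ₗ[R] B) (hu : FPure u) (g : A →ₗ[R] N) : ∃ h : B →ₗ[R] N, h ∘ₗ u = g := by
  obtain ⟨h, hh⟩ := hN.out u hu.injective g
  exact ⟨h, LinearMap.ext hh⟩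

/-- closedness of the class of injectives over a coherent ring -/
theorem injective_of_closure (hR : PCoh R R) {N : Type} [AddCommGroup N] [Module R N]
    (hpi : ∀ (A B : Type) [AddCommGroup A] [Module R A] [AddCommGroup B] [Module R B]
      (u : A →ₗ[R] B), FPure u → ∀ g : A →ₗ[R] N, ∃ h : B →ₗ[R] N, h ∘ₗ u = g)
    (hcl : ∀ (F G : Type) [AddCommGroup F] [Module R F] [AddCommGroup G] [Module R G]
      [Module.FinitePresentation R F] [Module.FinitePresentation R G] (f : F →ₗ[R] G),
      (∃ g : F →ₗ[R] N, ∀ h : G →ₗ[R] N, h ∘ₗ f ≠ g) →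
      ∃ (M : Type) (_ : AddCommGroup M) (_ : Module R M), Module.Injective R M ∧
        ∃ g : F →ₗ[R] M, ∀ h : G →ₗ[R] M, h ∘ₗ f ≠ g) : Module.Injective R N := by
  obtain ⟨I, _, _, j, hI, hj⟩ := exists_inj_emb (R := R) N
  have hpure : FPure j := by
    intro F G _ _ _ _ _ _ f a b hab
    -- a kills ker f
    have hle : LinearMap.ker f ≤ LinearMap.ker a := by
      intro x hx
      have h1 : j (a x) = 0 := by
        have := LinearMap.congr_fun hab x
        simp only [LinearMap.comp_apply] at this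
        rw [← this, (show f x = 0 from hx), map_zero]
      exact hj (by rw [h1, map_zero])
    -- the range of f is fp
    have hfg : (LinearMap.range f).FG := by
      rw [LinearMap.range_eq_map]
      exact (Module.Finite.fg_top (R := R) (M := F)).map f
    have hfp : Module.FinitePresentation R (LinearMap.range f) := (hR.of_fp G) _ hfg
    let e : (F ⧸ LinearMap.ker f) ≃ₗ[R] LinearMap.range f := f.quotKerEquivRange
    let a' : LinearMap.range f →ₗ[R] N := ((LinearMap.ker f).liftQ a hle) ∘ₗ e.symm.toLinearMap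
    have ha' : ∀ x, a' ⟨f x, ⟨x, rfl⟩⟩ = a x := by
      intro x
      have h1 : e.symm ⟨f x, ⟨x, rfl⟩⟩ = (LinearMap.ker f).mkQ x := by
        rw [LinearEquiv.symm_apply_eq]
        apply Subtype.ext
        simp [e]
      show ((LinearMap.ker f).liftQ a hle) (e.symm ⟨f x, ⟨x, rfl⟩⟩) = a x
      rw [h1]; simp
    by_contra hne
    have hop : ∃ g : LinearMap.range f →ₗ[R] N, ∀ h : G →ₗ[R] N,
        h ∘ₗ (LinearMap.range f).subtype ≠ g := by
      refine ⟨a', ?_⟩
      intro h hh
      apply hne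
      refine ⟨h, ?_⟩
      ext x
      rw [LinearMap.comp_apply, ← ha' x, ← hh]
      rfl
    obtain ⟨M, _, _, hM, g, hg⟩ := hcl _ _ (LinearMap.range f).subtype hop
    obtain ⟨h, hh⟩ := hM.out (LinearMap.range f).subtype (LinearMap.range f).injective_subtype g
    exact hg h (LinearMap.ext hh)
  obtain ⟨p, hp⟩ := hpi N I j hpure LinearMap.id
  exact injective_of_retract hI j p (fun x => LinearMap.congr_fun hp x)

end Pool.Agent.H2.Zg
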