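import Mathlib
import Pool.Agent.H2.Zg.Ann
import Pool.Agent.H2.Zg.Inj

set_option autoImplicit false
set_option linter.unusedSectionVars false
set_option linter.unusedSimpArgs false
set_option linter.deprecated false

namespace Pool.Agent.H2.Zg

open Pt

section general
variable {R : Type} [Ring R]

theorem inj_factor {A B E : Type} [AddCommGroup A] [Module R A] [AddCommGroup B] [Module R B]
    [AddCommGroup E] [Module R E] (hE : Module.Injective R E) (q : A →ₗ[R] B) (ψ : A →ₗ[R] E)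
    (h : LinearMap.ker q ≤ LinearMap.ker ψ) : ∃ φ : B →ₗ[R] E, ∀ a, φ (q a) = ψ a := by
  let q' : (A ⧸ LinearMap.ker q) →ₗ[R] B := (LinearMap.ker q).liftQ q le_rfl
  have hq : Function.Injective q' := by
    rw [← LinearMap.ker_eq_bot]
    exact Submodule.ker_liftQ_eq_bot _ _ _ le_rfl
  let ψ' : (A ⧸ LinearMap.ker q) →ₗ[R] E := (LinearMap.ker q).liftQ ψ h
  obtain ⟨φ, hφ⟩ := hE.out q' hq ψ'
  refine ⟨φ, ?_⟩
  intro a
  have := hφ ((LinearMap.ker q).mkQ a)
  simpa [q', ψ'] using this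

/-- nonzero homs exist -/
def Hit (R : Type) [Ring R] (K E : Type) [AddCommGroup K] [Module R K] [AddCommGroup E]
    [Module R E] : Prop := ∃ k : K →ₗ[R] E, k ≠ 0

/-- reduce a nonzero f.p. module to a cyclic one `R ⧸ I` with `I` f.g. proper. -/
theorem exists_cyclic (K : Type) [AddCommGroup K] [Module R K] [Module.FinitePresentation R K]
    [Nontrivial K] : ∃ I : Submodule R R, I.FG ∧ I ≠ ⊤ ∧
      ∀ (E : Type) [AddCommGroup E] [Module R E], Hit R (R ⧸ I) E → Hit R K E := by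
  classical
  have step : ∀ S : Finset K, Submodule.span R (S : Set K) = ⊤ →
      ∃ (K₀ : Submodule R K) (x : K), K₀.FG ∧ K₀ ≠ ⊤ ∧ K₀ ⊔ Submodule.span R {x} = ⊤ := by
    intro S
    induction S using Finset.induction_on with
    | empty =>
      intro h
      rw [Finset.coe_empty, Submodule.span_empty] at h
      exact absurd h bot_ne_top
    | insert x S _ ih =>
      intro h
      by_cases h1 : Submodule.span R (S : Set K) = ⊤
      · exact ih h1
      · refine ⟨Submodule.span R (S : Set K), x, ⟨S, rfl⟩, h1, ?_⟩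
        rw [← h, Finset.coe_insert, Submodule.span_insert, sup_comm]
  obtain ⟨S, hS⟩ := (Module.Finite.fg_top (R := R) (M := K))
  obtain ⟨K₀, x, hfg, hne, hsup⟩ := step S hS
  have hfp : Module.FinitePresentation R (K ⧸ K₀) := by
    apply Module.finitePresentation_of_surjective K₀.mkQ K₀.mkQ_surjective
    rw [Submodule.ker_mkQ]; exact hfg
  let π : R →ₗ[R] (K ⧸ K₀) := LinearMap.toSpanSingleton R (K ⧸ K₀) (K₀.mkQ x)
  have hπ : Function.Surjective π := by
    intro y
    obtain ⟨z, rfl⟩ := K₀.mkQ_surjective y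
    have hz : z ∈ K₀ ⊔ Submodule.span R {x} := by rw [hsup]; trivial
    obtain ⟨a, ha, b, hb, rfl⟩ := Submodule.mem_sup.1 hz
    obtain ⟨r, rfl⟩ := Submodule.mem_span_singleton.1 hb
    refine ⟨r, ?_⟩
    have h1 : K₀.mkQ a = 0 := by simpa using ha
    rw [map_add, h1, zero_add, map_smul]
    rfl
  refine ⟨LinearMap.ker π, Module.FinitePresentation.fg_ker π hπ, ?_, ?_⟩
  · intro h
    apply hne
    rw [eq_top_iff]
    intro z _
    obtain ⟨r, hr⟩ := hπ (K₀.mkQ z)
    have : r ∈ LinearMap.ker π := by rw [h]; trivial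
    rw [LinearMap.mem_ker] at this
    rw [this] at hr
    have h2 : K₀.mkQ z = 0 := hr.symm
    simpa using h2
  · intro E _ _ hHit
    obtain ⟨k, hk⟩ := hHit
    let e : (R ⧸ LinearMap.ker π) ≃ₗ[R] (K ⧸ K₀) := LinearMap.quotKerEquivOfSurjective π hπ
    refine ⟨k ∘ₗ e.symm.toLinearMap ∘ₗ K₀.mkQ, ?_⟩
    intro h0
    apply hk
    apply LinearMap.ext
    intro z
    obtain ⟨y, rfl⟩ := e.symm.surjective z
    obtain ⟨u, rfl⟩ := K₀.mkQ_surjective y
    exact LinearMap.congr_fun h0 u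

end general

variable {X : Type} [LinearOrder X] {K : Type} [Field K]

/-- evaluation at a basis vector -/
noncomputable def ev (v : Pt X) : RR X K →ₗ[RR X K] MM X K :=
  LinearMap.toSpanSingleton (RR X K) (MM X K) (dl v)

theorem ev_apply (v : Pt X) (r : RR X K) : ev v r = r • (dl v : MM X K) := rfl

theorem infinite_Pt [Nonempty X] : Infinite (Pt X) := by
  obtain ⟨x⟩ := ‹Nonempty X›
  apply Infinite.of_injective (fun n : ℕ => (⟨List.replicate n x, x⟩ : Pt X))
  intro m n h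
  have := congrArg (fun p => p.ini.length) h
  simpa using this

/-- the left ideals annihilating finitely many basis vectors -/
def annS (s : Finset (Pt X)) : Submodule (RR X K) (RR X K) where
  carrier := {r | ∀ v ∈ s, r • (dl v : MM X K) = 0}
  add_mem' := by
    intro a b ha hb v hv
    rw [add_smul, ha v hv, hb v hv, add_zero]
  zero_mem' := by intro v _; rw [zero_smul]
  smul_mem' := by
    intro c a ha v hv
    rw [smul_eq_mul, mul_smul, ha v hv, smul_zero]

theorem mem_annS {s : Finset (Pt X)} {r : RR X K} :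
    r ∈ (annS s : Submodule (RR X K) (RR X K)) ↔ ∀ v ∈ s, r • (dl v : MM X K) = 0 := Iff.rfl

theorem annS_fg (s : Finset (Pt X)) : (annS s : Submodule (RR X K) (RR X K)).FG := by
  let f : RR X K →ₗ[RR X K] (s → MM X K) := LinearMap.pi (fun v => ev (v : Pt X))
  have h : (LinearMap.ker f).FG := (PCoh_MM.pi (ι := s)).ker_fg f
  have e : LinearMap.ker f = annS s := by
    ext r
    rw [LinearMap.mem_ker, mem_annS]
    constructor
    · intro h v hv
      exact congrFun h ⟨v, hv⟩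
    · intro h
      funext v
      exact h v.1 v.2
  rw [← e]; exact h

/-- Lemma Q for cyclic modules. -/
theorem lemmaQ_cyclic [Nonempty X] (I : Submodule (RR X K) (RR X K)) (hI : I.FG) (hne : I ≠ ⊤) :
    ∃ (w : Pt X) (D : Submodule (RR X K) (MM X K)), D.FG ∧ (dl w : MM X K) ∉ D ∧
      ∀ (E : Type) [AddCommGroup E] [Module (RR X K) E], Module.Injective (RR X K) E →
        (∃ Φ : MM X K →ₗ[RR X K] E, (∀ m ∈ D, Φ m = 0) ∧ Φ (dl w) ≠ 0) →
        Hit (RR X K) (RR X K ⧸ I) E := by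
  classical
  obtain ⟨V, hf, hV, hcase⟩ := ideal_cases I hI
  rcases hcase with hcase | hcase
  · -- 1 - e ∈ I
    have step : ∀ s : Finset (Pt X), (annS s : Submodule (RR X K) (RR X K)) ≤ I →
        ∃ (s' : Finset (Pt X)) (v : Pt X), ¬ (annS s' : Submodule (RR X K) (RR X K)) ≤ I ∧
          (annS (insert v s') : Submodule (RR X K) (RR X K)) ≤ I := by
      intro s
      induction s using Finset.induction_on with
      | empty =>
        intro h
        exfalso
        apply hne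
        rw [eq_top_iff]
        intro r _
        exact h (fun v hv => absurd hv (Finset.notMem_empty v))
      | insert x S _ ih =>
        intro h
        by_cases h1 : (annS S : Submodule (RR X K) (RR X K)) ≤ I
        · exact ih h1
        · exact ⟨S, x, h1, h⟩
    have hVI : (annS hf.toFinset : Submodule (RR X K) (RR X K)) ≤ I := by
      intro T hT
      have h1 : T = T * (1 - pr V hV hf) := by
        apply RR_ext
        intro u
        rw [mul_smul, sub_smul, one_smul]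
        by_cases hu : u ∈ V
        · have h2 : (pr V hV hf : RR X K) • (dl u : MM X K) = dl u := proj_mem hu
          rw [h2, sub_self, smul_zero]
          exact hT u (by simpa using hu)
        · have h2 : (pr V hV hf : RR X K) • (dl u : MM X K) = 0 := proj_notMem hu
          rw [h2, sub_zero]
      rw [h1]
      exact I.smul_mem T hcase
    obtain ⟨s, v, hs1, hs2⟩ := step _ hVI
    let A : Submodule (RR X K) (RR X K) := annS s
    have hAfg : A.FG := annS_fg s
    have hAv : ∀ a ∈ A, a • (dl v : MM X K) = 0 → a ∈ I := by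
      intro a ha hav
      apply hs2
      intro u hu
      rw [Finset.mem_insert] at hu
      rcases hu with rfl | hu
      · exact hav
      · exact ha u hu
    have hmap : (A.map (ev v : RR X K →ₗ[RR X K] MM X K)).FG := hAfg.map _
    obtain ⟨w, hw⟩ : ∃ w, A.map (ev v : RR X K →ₗ[RR X K] MM X K) =
        Submodule.span (RR X K) {(dl w : MM X K)} := by
      rcases fg_cases hmap with h | h
      · exfalso
        apply hs1
        intro a ha
        apply hAv a ha
        have : ev v a ∈ A.map (ev v : RR X K →ₗ[RR X K] MM X K) := ⟨a, ha, rfl⟩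
        rw [h] at this
        exact this
      · exact h
    let D : Submodule (RR X K) (MM X K) := (A ⊓ I).map (ev v : RR X K →ₗ[RR X K] MM X K)
    have hDfg : D.FG := (PCoh_RR.inf_fg hAfg hI).map _
    have hwD : (dl w : MM X K) ∉ D := by
      rintro ⟨T, ⟨hTA, hTI⟩, hT⟩
      apply hs1
      intro a ha
      have h1 : ev v a ∈ A.map (ev v : RR X K →ₗ[RR X K] MM X K) := ⟨a, ha, rfl⟩
      rw [hw] at h1
      obtain ⟨r, hr⟩ := Submodule.mem_span_singleton.1 h1
      rw [← hT] at hr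
      have h2 : (a - r * T) • (dl v : MM X K) = 0 := by
        rw [sub_smul, mul_smul]
        have h3 : r • (T • (dl v : MM X K)) = a • (dl v : MM X K) := hr
        rw [h3, sub_self]
      have h3 : a - r * T ∈ I := hAv _ (A.sub_mem ha (A.smul_mem r hTA)) h2
      have h4 : r * T ∈ I := I.smul_mem r hTI
      have h5 : a = (a - r * T) + r * T := by abel
      rw [h5]; exact I.add_mem h3 h4
    refine ⟨w, D, hDfg, hwD, ?_⟩
    intro E _ _ hE ⟨Φ, hΦD, hΦw⟩
    let q : A →ₗ[RR X K] (RR X K ⧸ I) := I.mkQ ∘ₗ A.subtype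
    let ψ : A →ₗ[RR X K] E := Φ ∘ₗ (ev v) ∘ₗ A.subtype
    have hker : LinearMap.ker q ≤ LinearMap.ker ψ := by
      rintro ⟨a, ha⟩ haq
      have h1 : I.mkQ a = 0 := haq
      have h2 : a ∈ I := by simpa using h1
      show Φ (ev v a) = 0
      exact hΦD _ ⟨a, ⟨ha, h2⟩, rfl⟩
    obtain ⟨φ, hφ⟩ := inj_factor hE q ψ hker
    refine ⟨φ, ?_⟩
    intro h0
    have h1 : (dl w : MM X K) ∈ A.map (ev v : RR X K →ₗ[RR X K] MM X K) := by
      rw [hw]; exact Submodule.mem_span_singleton_self _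
    obtain ⟨a, ha, hav⟩ := h1
    apply hΦw
    have h2 := hφ ⟨a, ha⟩
    rw [h0] at h2
    have h3 : ψ ⟨a, ha⟩ = Φ (ev v a) := rfl
    rw [h3, hav] at h2
    rw [← h2]; rfl
  · -- I ⊆ R e
    have hinf : Infinite (Pt X) := infinite_Pt
    obtain ⟨w, hw⟩ := hf.exists_notMem
    refine ⟨w, ⊥, Submodule.fg_bot, ?_, ?_⟩
    · intro h
      exact dl_ne_zero w h
    · intro E _ _ _ ⟨Φ, _, hΦw⟩
      let φ : RR X K →ₗ[RR X K] E := Φ ∘ₗ (ev w)
      have hφ : I ≤ LinearMap.ker φ := by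
        intro T hT
        have h1 := hcase T hT
        show Φ (T • (dl w : MM X K)) = 0
        rw [h1, mul_smul]
        have h2 : (pr V hV hf : RR X K) • (dl w : MM X K) = 0 := proj_notMem hw
        rw [h2, smul_zero, map_zero]
      refine ⟨I.liftQ φ hφ, ?_⟩
      intro h0
      apply hΦw
      have := LinearMap.congr_fun h0 (I.mkQ 1)
      simp only [Submodule.mkQ_apply, Submodule.liftQ_apply, LinearMap.zero_apply] at this
      have h1 : φ 1 = Φ ((1 : RR X K) • (dl w : MM X K)) := rfl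
      rw [h1, one_smul] at this
      exact this

theorem lemmaQ [Nonempty X] (F : Type) [AddCommGroup F] [Module (RR X K) F]
    [Module.FinitePresentation (RR X K) F] [Nontrivial F] :
    ∃ (w : Pt X) (D : Submodule (RR X K) (MM X K)), D.FG ∧ (dl w : MM X K) ∉ D ∧
      ∀ (E : Type) [AddCommGroup E] [Module (RR X K) E], Module.Injective (RR X K) E →
        (∃ Φ : MM X K →ₗ[RR X K] E, (∀ m ∈ D, Φ m = 0) ∧ Φ (dl w) ≠ 0) →
        Hit (RR X K) F E := by
  obtain ⟨I, hI, hne, h⟩ := exists_cyclic (R := RR X K) F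
  obtain ⟨w, D, h1, h2, h3⟩ := lemmaQ_cyclic I hI hne
  exact ⟨w, D, h1, h2, fun E _ _ hE hΦ => h E (h3 E hE hΦ)⟩

/-- Lemma B -/
theorem lemmaB [DenselyOrdered X] [NoMinOrder X] (w : Pt X) (D : Submodule (RR X K) (MM X K))
    (hD : D.FG) (hw : (dl w : MM X K) ∉ D) :
    ∃ B₀ : Multiset X, ∀ B : Multiset X, B₀ ≤ B → ∀ t : X, ∃ (k : List X) (c : X),
      (↑(k ++ [c]) : Multiset X) = B ∧
      D ≤ Submodule.span (RR X K) {(dl (⟨k, c⟩ : Pt X) : MM X K)} ∧
      act (k ++ [c]) (⟨[], t⟩ : Pt X) ≤ w := by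
  obtain ⟨g, x⟩ := w
  -- find s < x with D ≤ span {dl ⟨g, s⟩}
  obtain ⟨s, hsx, hs⟩ : ∃ s, s < x ∧ D ≤ Submodule.span (RR X K) {(dl (⟨g, s⟩ : Pt X) : MM X K)} := by
    rcases fg_cases hD with h | ⟨Y, h⟩
    · obtain ⟨s, hs⟩ := exists_lt x
      exact ⟨s, hs, by rw [h]; exact bot_le⟩
    · have hY : Y < ⟨g, x⟩ := by
        by_contra h1
        rw [not_lt] at h1
        apply hw
        rw [h]; exact dl_mem_span h1
      rw [h]
      rw [lt_iff] at hY
      have e1 : (⟨g, x⟩ : Pt X).toL = g ++ [x] := rfl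
      rw [e1] at hY
      rcases le_or_gt Y.toL g with h2 | h2
      · obtain ⟨s, hs⟩ := exists_lt x
        refine ⟨s, hs, span_dl_le_iff.2 ?_⟩
        rw [le_iff]
        apply h2.trans
        have h3 : g ++ [] ≤ g ++ [s] := (append_le_append_iff g _ _).2 (nil_le' _)
        rw [List.append_nil] at h3
        exact h3
      · have h2' : g ++ [] ≤ Y.toL := by simpa using h2.le
        obtain ⟨c, hc⟩ := exists_of_between g _ _ _ h2' hY.le
        have hcne : c ≠ [] := by
          rintro rfl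
          rw [hc] at h2
          simp at h2
        obtain ⟨z, c', rfl⟩ := List.exists_cons_of_ne_nil hcne
        rw [hc, append_lt_append_iff] at hY
        have hzx : z < x := by
          rw [List.cons_lt_cons_iff] at hY
          rcases hY with h3 | ⟨_, h3⟩
          · exact h3
          · exact absurd h3 (not_lt.2 (nil_le' _))
        obtain ⟨s, hs1, hs2⟩ := exists_between hzx
        refine ⟨s, hs2, span_dl_le_iff.2 ?_⟩
        rw [le_iff, hc]
        have e2 : (⟨g, s⟩ : Pt X).toL = g ++ [s] := rfl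
        rw [e2, append_le_append_iff]
        apply le_of_lt
        rw [List.cons_lt_cons_iff]
        exact Or.inl hs1
  refine ⟨↑(g ++ [s]), ?_⟩
  intro B hB t
  obtain ⟨U, rfl⟩ := Multiset.le_iff_exists_add.1 hB
  obtain ⟨u, rfl⟩ := Quot.exists_rep U
  have hne : (g ++ [s]) ++ u ≠ [] := by simp
  rcases List.eq_nil_or_concat ((g ++ [s]) ++ u) with h | ⟨k, c, hkc⟩
  · exact absurd h hne
  rw [List.concat_eq_append] at hkc
  refine ⟨k, c, ?_, ?_, ?_⟩
  · rw [← hkc]; rfl
  · apply hs.trans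
    rw [span_dl_le_iff, le_iff]
    have e2 : (⟨g, s⟩ : Pt X).toL = (g ++ [s]) ++ [] := by simp [toL]
    have e3 : (⟨k, c⟩ : Pt X).toL = (g ++ [s]) ++ u := hkc.symm
    rw [e2, e3, append_le_append_iff]
    exact nil_le' _
  · rw [le_iff, toL_act, ← hkc]
    have e1 : (⟨g, x⟩ : Pt X).toL = g ++ [x] := rfl
    have e2 : (⟨[], t⟩ : Pt X).toL = [t] := rfl
    rw [e1, e2]
    have e3 : ((g ++ [s]) ++ u) ++ [t] = g ++ (s :: (u ++ [t])) := by simp
    rw [e3, append_le_append_iff]
    apply le_of_lt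
    rw [List.cons_lt_cons_iff]
    exact Or.inl hsx

/-- the left ideal defining `J_{B,t}`. -/
noncomputable def Ja (k : List X) (c t : X) : Submodule (RR X K) (RR X K) :=
  (Submodule.span (RR X K) {(dl (⟨k, c⟩ : Pt X) : MM X K)}).comap
    (ev (act (k ++ [c]) (⟨[], t⟩ : Pt X)))

theorem mem_Ja' {k : List X} {c t : X} {r : RR X K} :
    r ∈ (Ja k c t : Submodule (RR X K) (RR X K)) ↔
      r • (dl (act (k ++ [c]) (⟨[], t⟩ : Pt X)) : MM X K) ∈
        Submodule.span (RR X K) {(dl (⟨k, c⟩ : Pt X) : MM X K)} := Iff.rfl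

theorem mem_Ja {k : List X} {c t : X} {r : RR X K} :
    r ∈ (Ja k c t : Submodule (RR X K) (RR X K)) ↔
      ∀ y', co (r : Module.End K (MM X K)) (act (k ++ [c]) y')
        (act (k ++ [c]) (⟨[], t⟩ : Pt X)) = 0 := by
  constructor
  · intro h y'
    have h1 : r • (dl (act (k ++ [c]) (⟨[], t⟩ : Pt X)) : MM X K) ∈
      Submodule.span (RR X K) {(dl (⟨k, c⟩ : Pt X) : MM X K)} := h
    rw [mem_span_dl] at h1
    by_contra h2
    have h3 := h1 (act (k ++ [c]) y') h2
    exact absurd (node_lt_act k c y') (not_lt.2 h3)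
  · intro h
    show r • (dl (act (k ++ [c]) (⟨[], t⟩ : Pt X)) : MM X K) ∈
      Submodule.span (RR X K) {(dl (⟨k, c⟩ : Pt X) : MM X K)}
    rw [mem_span_dl]
    intro y hy
    by_contra h1
    rw [not_le] at h1
    obtain ⟨y', rfl⟩ := node_between h1 (smul_support hy)
    exact hy (h y')

theorem Ja_eq {k h : List X} {c d t : X} (hp : (k ++ [c]).Perm (h ++ [d])) :
    (Ja k c t : Submodule (RR X K) (RR X K)) = Ja h d t := by
  ext r
  rw [mem_Ja, mem_Ja]
  constructor
  · intro H y'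
    rw [← r.2.2.1 _ _ _ _ hp]; exact H y'
  · intro H y'
    rw [r.2.2.1 _ _ _ _ hp]; exact H y'

theorem Ja_ne_top (k : List X) (c t : X) : (Ja k c t : Submodule (RR X K) (RR X K)) ≠ ⊤ := by
  intro h
  have h1 : (1 : RR X K) ∈ (Ja k c t : Submodule (RR X K) (RR X K)) := by rw [h]; trivial
  have h2 : (1 : RR X K) • (dl (act (k ++ [c]) (⟨[], t⟩ : Pt X)) : MM X K) ∈
      Submodule.span (RR X K) {(dl (⟨k, c⟩ : Pt X) : MM X K)} := h1
  rw [one_smul, dl_mem_span_iff] at h2
  exact absurd (node_lt_act k c _) (not_lt.2 h2)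

theorem ker_ev_le_Ja (k : List X) (c t : X) :
    LinearMap.ker (ev (act (k ++ [c]) (⟨[], t⟩ : Pt X)) : RR X K →ₗ[RR X K] MM X K) ≤ Ja k c t := by
  intro r hr
  rw [LinearMap.mem_ker, ev_apply] at hr
  rw [mem_Ja', hr]; exact Submodule.zero_mem _

theorem Ja_fg (k : List X) (c t : X) : (Ja k c t : Submodule (RR X K) (RR X K)).FG := by
  have h := (PCoh_MM.quot (Submodule.span (RR X K) {(dl (⟨k, c⟩ : Pt X) : MM X K)})
    (Submodule.fg_span_singleton _)).ker_fg ((Submodule.mkQ _) ∘ₗ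
      (ev (act (k ++ [c]) (⟨[], t⟩ : Pt X)) : RR X K →ₗ[RR X K] MM X K))
  rw [LinearMap.ker_comp, Submodule.ker_mkQ] at h
  exact h

theorem Ja_uniform (k : List X) (c t : X)
    (A B : Submodule (RR X K) (RR X K ⧸ (Ja k c t : Submodule (RR X K) (RR X K))))
    (hA : A ≠ ⊥) (hB : B ≠ ⊥) : A ⊓ B ≠ ⊥ := by
  have key : ∀ A B : Submodule (RR X K) (RR X K ⧸ (Ja k c t : Submodule (RR X K) (RR X K))),
      (A.comap (Submodule.mkQ _)).map (ev (act (k ++ [c]) (⟨[], t⟩ : Pt X)) :
        RR X K →ₗ[RR X K] MM X K) ≤ (B.comap (Submodule.mkQ _)).map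
          (ev (act (k ++ [c]) (⟨[], t⟩ : Pt X))) → A ≤ B := by
    intro A B h z hz
    obtain ⟨a, rfl⟩ := Submodule.mkQ_surjective _ z
    have h1 : ev (act (k ++ [c]) (⟨[], t⟩ : Pt X)) a ∈ (B.comap (Submodule.mkQ _)).map
          (ev (act (k ++ [c]) (⟨[], t⟩ : Pt X))) := h ⟨a, hz, rfl⟩
    obtain ⟨b, hb, hab⟩ := h1
    have h2 : a - b ∈ (Ja k c t : Submodule (RR X K) (RR X K)) := by
      apply ker_ev_le_Ja
      rw [LinearMap.mem_ker, map_sub, hab, sub_self]
    have h3 : Submodule.mkQ (Ja k c t : Submodule (RR X K) (RR X K)) (a - b) = 0 := by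
      rw [Submodule.mkQ_apply, Submodule.Quotient.mk_eq_zero]; exact h2
    rw [map_sub, sub_eq_zero] at h3
    rw [h3]
    exact hb
  rcases uniserial ((A.comap (Submodule.mkQ _)).map (ev (act (k ++ [c]) (⟨[], t⟩ : Pt X)) :
        RR X K →ₗ[RR X K] MM X K)) ((B.comap (Submodule.mkQ _)).map
          (ev (act (k ++ [c]) (⟨[], t⟩ : Pt X)))) with h | h
  · rw [inf_eq_left.2 (key A B h)]; exact hA
  · rw [inf_eq_right.2 (key B A h)]; exact hB

/-- Every map out of `R ⧸ Ja` into an injective comes from `MM`. -/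
theorem exists_Phi {k : List X} {c t : X} {E : Type} [AddCommGroup E] [Module (RR X K) E]
    (hE : Module.Injective (RR X K) E)
    (j : (RR X K ⧸ (Ja k c t : Submodule (RR X K) (RR X K))) →ₗ[RR X K] E) (hj : j ≠ 0) :
    ∃ Φ : MM X K →ₗ[RR X K] E, Φ (dl (act (k ++ [c]) (⟨[], t⟩ : Pt X))) ≠ 0 ∧
      ∀ m ∈ Submodule.span (RR X K) {(dl (⟨k, c⟩ : Pt X) : MM X K)}, Φ m = 0 := by
  let ψ : RR X K →ₗ[RR X K] E := j ∘ₗ (Submodule.mkQ _)
  have hker : LinearMap.ker (ev (act (k ++ [c]) (⟨[], t⟩ : Pt X)) : RR X K →ₗ[RR X K] MM X K) ≤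
      LinearMap.ker ψ := by
    intro r hr
    have h1 := ker_ev_le_Ja k c t hr
    show j (Submodule.mkQ _ r) = 0
    have h2 : Submodule.mkQ (Ja k c t : Submodule (RR X K) (RR X K)) r = 0 := by simpa using h1
    rw [h2, map_zero]
  obtain ⟨Φ, hΦ⟩ := inj_factor hE _ ψ hker
  refine ⟨Φ, ?_, ?_⟩
  · intro h0
    apply hj
    apply LinearMap.ext
    intro z
    obtain ⟨a, rfl⟩ := Submodule.mkQ_surjective _ z
    have h1 := hΦ a
    rw [ev_apply, map_smul, h0, smul_zero] at h1
    exact h1.symm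
  · intro m hm
    have h1 : m ∈ Submodule.span (RR X K) {(dl (act (k ++ [c]) (⟨[], t⟩ : Pt X)) : MM X K)} :=
      (span_dl_le_iff.2 (node_lt_act k c _).le) hm
    obtain ⟨r, hr⟩ := Submodule.mem_span_singleton.1 h1
    have h2 := hΦ r
    rw [ev_apply, hr] at h2
    rw [h2]
    show j (Submodule.mkQ _ r) = 0
    have h3 : r ∈ (Ja k c t : Submodule (RR X K) (RR X K)) := by
      rw [mem_Ja', hr]; exact hm
    have h4 : Submodule.mkQ (Ja k c t : Submodule (RR X K) (RR X K)) r = 0 := by simpa using h3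
    rw [h4, map_zero]

/-- the hull of `R ⧸ Ja`. -/
theorem exists_hull_Ja (k : List X) (c t : X) :
    ∃ (E : Type) (_ : AddCommGroup E) (_ : Module (RR X K) E)
      (j : (RR X K ⧸ (Ja k c t : Submodule (RR X K) (RR X K))) →ₗ[RR X K] E),
      Module.Injective (RR X K) E ∧ Indec (RR X K) E ∧ j ≠ 0 := by
  have : Nontrivial (RR X K ⧸ (Ja k c t : Submodule (RR X K) (RR X K))) :=
    Submodule.Quotient.nontrivial_iff.2 (Ja_ne_top k c t)
  obtain ⟨E, i1, i2, j, h1, h2, h3⟩ := exists_hull (R := RR X K)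
    (RR X K ⧸ (Ja k c t : Submodule (RR X K) (RR X K))) (Ja_uniform k c t)
  refine ⟨E, i1, i2, j, h1, h2, ?_⟩
  rintro rfl
  obtain ⟨a, b, hab⟩ := exists_pair_ne (RR X K ⧸ (Ja k c t : Submodule (RR X K) (RR X K)))
  exact hab (h3 rfl)

/-- Irreducibility: two nonzero f.p. modules are hit by a common indecomposable injective. -/
theorem common_hit [Nonempty X] [DenselyOrdered X] [NoMinOrder X]
    (F₁ : Type) [AddCommGroup F₁] [Module (RR X K) F₁]
    [Module.FinitePresentation (RR X K) F₁] [Nontrivial F₁]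
    (F₂ : Type) [AddCommGroup F₂] [Module (RR X K) F₂]
    [Module.FinitePresentation (RR X K) F₂] [Nontrivial F₂] :
    ∃ (E : Type) (_ : AddCommGroup E) (_ : Module (RR X K) E),
      Module.Injective (RR X K) E ∧ Indec (RR X K) E ∧ Hit (RR X K) F₁ E ∧ Hit (RR X K) F₂ E := by
  obtain ⟨w₁, D₁, hD₁, hw₁, H₁⟩ := lemmaQ (X := X) (K := K) F₁
  obtain ⟨w₂, D₂, hD₂, hw₂, H₂⟩ := lemmaQ (X := X) (K := K) F₂
  obtain ⟨B₁, hB₁⟩ := lemmaB w₁ D₁ hD₁ hw₁
  obtain ⟨B₂, hB₂⟩ := lemmaB w₂ D₂ hD₂ hw₂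
  obtain ⟨t⟩ := ‹Nonempty X›
  obtain ⟨k₁, c₁, e₁, f₁, g₁⟩ := hB₁ (B₁ + B₂) (Multiset.le_add_right _ _) t
  obtain ⟨k₂, c₂, e₂, f₂, g₂⟩ := hB₂ (B₁ + B₂) (Multiset.le_add_left _ _) t
  have hp : (k₁ ++ [c₁]).Perm (k₂ ++ [c₂]) := Multiset.coe_eq_coe.1 (e₁.trans e₂.symm)
  obtain ⟨E, i1, i2, j, hE, hind, hj⟩ := exists_hull_Ja (X := X) (K := K) k₁ c₁ t
  have hcomm : ∀ (k : List X) (c : X) (w : Pt X) (D : Submodule (RR X K) (MM X K))
      (j : (RR X K ⧸ (Ja k c t : Submodule (RR X K) (RR X K))) →ₗ[RR X K] E), j ≠ 0 →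
      D ≤ Submodule.span (RR X K) {(dl (⟨k, c⟩ : Pt X) : MM X K)} →
      act (k ++ [c]) (⟨[], t⟩ : Pt X) ≤ w →
      ∃ Φ : MM X K →ₗ[RR X K] E, (∀ m ∈ D, Φ m = 0) ∧ Φ (dl w) ≠ 0 := by
    intro k c w D j hj hD hw
    obtain ⟨Φ, h1, h2⟩ := exists_Phi hE j hj
    refine ⟨Φ, fun m hm => h2 m (hD hm), ?_⟩
    intro h0
    apply h1
    obtain ⟨r, hr⟩ := exists_smul_eq (K := K) hw
    rw [← hr, map_smul, h0, smul_zero]
  refine ⟨E, i1, i2, hE, hind, H₁ E hE (hcomm k₁ c₁ w₁ D₁ j hj f₁ g₁), ?_⟩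
  have hJ := Ja_eq (X := X) (K := K) (t := t) hp
  let e := Submodule.quotEquivOfEq _ _ hJ
  refine H₂ E hE (hcomm k₂ c₂ w₂ D₂ (j ∘ₗ e.symm.toLinearMap) ?_ f₂ g₂)
  intro h0
  apply hj
  apply LinearMap.ext
  intro z
  obtain ⟨y, rfl⟩ := e.symm.surjective z
  exact LinearMap.congr_fun h0 y

/-- No indecomposable injective is hit by all `R ⧸ Ja [] x x`. -/
theorem no_generic [Uncountable X] (N : Type) [AddCommGroup N] [Module (RR X K) N]
    (hN : Module.Injective (RR X K) N) (hind : Indec (RR X K) N)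
    (hhit : ∀ x : X, Hit (RR X K) (RR X K ⧸ (Ja [] x x : Submodule (RR X K) (RR X K))) N) :
    False := by
  classical
  have hinf : Infinite X := inferInstance
  -- the maps
  have hΦ : ∀ x : X, ∃ Φ : MM X K →ₗ[RR X K] N, Φ (dl (⟨[x], x⟩ : Pt X)) ≠ 0 ∧
      ∀ m ∈ Submodule.span (RR X K) {(dl (⟨[], x⟩ : Pt X) : MM X K)}, Φ m = 0 := by
    intro x
    obtain ⟨j, hj⟩ := hhit x
    exact exists_Phi hN j hj
  choose Φx hΦ1 hΦ2 using hΦ
  obtain ⟨x₀⟩ : Nonempty X := inferInstance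
  let Φ := Φx x₀
  let w₀ : Pt X := ⟨[x₀], x₀⟩
  have hw₀ : Φ (dl w₀) ≠ 0 := hΦ1 x₀
  have hW : ∀ x : X, ∃ w : Pt X, Φ (dl w) ≠ 0 ∧
      ∀ w' ≤ w, Φ (dl w') ≠ 0 → x ∈ w'.ini := by
    intro x
    have hA : Submodule.span (RR X K) {Φ (dl w₀)} ≠ ⊥ := by
      rw [Ne, Submodule.span_singleton_eq_bot]; exact hw₀
    have hB : Submodule.span (RR X K) {Φx x (dl (⟨[x], x⟩ : Pt X))} ≠ ⊥ := by
      rw [Ne, Submodule.span_singleton_eq_bot]; exact hΦ1 x
    have hAB := uniform_of_indec hN hind _ _ hA hB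
    obtain ⟨n, hn, hn0⟩ := Submodule.exists_mem_ne_zero_of_ne_bot hAB
    obtain ⟨hn1, hn2⟩ := hn
    obtain ⟨r, hr⟩ := Submodule.mem_span_singleton.1 hn1
    obtain ⟨s, hs⟩ := Submodule.mem_span_singleton.1 hn2
    have hm0 : r • (dl w₀ : MM X K) ≠ 0 := by
      intro h0
      apply hn0
      rw [← hr, ← map_smul, h0, map_zero]
    obtain ⟨w, hw1, hw2⟩ := exists_top hm0
    have hspan := span_eq_of_top hw1 hw2
    have hdw : (dl w : MM X K) ∈ Submodule.span (RR X K) {r • (dl w₀ : MM X K)} := by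
      rw [hspan]; exact Submodule.mem_span_singleton_self _
    obtain ⟨a, ha⟩ := Submodule.mem_span_singleton.1 hdw
    refine ⟨w, ?_, ?_⟩
    · intro h0
      apply hn0
      have h1 : r • (dl w₀ : MM X K) ∈ Submodule.span (RR X K) {(dl w : MM X K)} := by
        rw [← hspan]; exact Submodule.mem_span_singleton_self _
      obtain ⟨b, hb⟩ := Submodule.mem_span_singleton.1 h1
      rw [← hr, ← map_smul, ← hb, map_smul, h0, smul_zero]
    · intro w' hw' hΦw'
      by_contra hx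
      apply hΦw'
      obtain ⟨b, hb⟩ := exists_smul_eq (K := K) hw'
      -- Φ (dl w') = Φx x m'
      have h1 : Φ (dl w') = Φx x ((b * a * s) • dl (⟨[x], x⟩ : Pt X)) := by
        rw [← hb, map_smul, ← ha, map_smul, map_smul, hr, ← hs, map_smul, mul_smul, mul_smul]
      have h2 : Φ (dl w') = (ide w' : RR X K) • Φ (dl w') := by
        conv_lhs => rw [← ide_smul_of (K := K) (rfl : ty w' = ty w')]
        rw [map_smul]
      rw [h2, h1, ← map_smul]
      have h3 := lin_mem (LinearMap.ker (Φx x)) ((ide w' : RR X K) : Module.End K (MM X K))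
        ((b * a * s) • dl (⟨[x], x⟩ : Pt X)) ?_
      · exact h3
      · intro u hu
        have hule : u ≤ ⟨[x], x⟩ := smul_support hu
        show (ide w' : RR X K) • (dl u : MM X K) ∈ _
        by_cases hty : ty u = ty w'
        · rw [ide_smul_of hty]
          have hxu : x ∉ u.ini := by
            intro h4
            exact hx ((ty_eq_iff.1 hty).1.mem_iff.1 h4)
          have hule' : u ≤ ⟨[], x⟩ := by
            by_contra h5
            rw [not_le] at h5
            have h6 : u ≤ act ([] ++ [x]) (⟨[], x⟩ : Pt X) := hule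
            obtain ⟨r', rfl⟩ := node_between h5 h6
            exact hxu (by simp)
          exact hΦ2 x _ (dl_mem_span hule')
        · rw [ide_smul_ne hty]; exact Submodule.zero_mem _
  choose W hW1 hW2 using hW
  -- a countable subfamily
  let xs : ℕ → X := (Infinite.natEmbedding X)
  have hxs : Function.Injective xs := (Infinite.natEmbedding X).injective
  have hcover : (Set.univ : Set X) ⊆ ⋃ n : ℕ, {x | x ∈ (W (xs n)).ini} := by
    intro x _
    by_contra h0
    simp only [Set.mem_iUnion, Set.mem_setOf_eq, not_exists] at h0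
    have h1 : ∀ n, W x < W (xs n) := by
      intro n
      by_contra h2
      rw [not_lt] at h2
      exact h0 n (hW2 x _ h2 (hW1 (xs n)))
    have h2 : ∀ n, xs n ∈ (W x).ini := fun n => hW2 (xs n) (W x) (h1 n).le (hW1 x)
    have h3 : (Set.range xs).Finite := by
      apply ((W x).ini.finite_toSet).subset
      rintro _ ⟨n, rfl⟩
      exact h2 n
    exact Set.infinite_range_of_injective hxs h3
  have hcount : (Set.univ : Set X).Countable := by
    apply Set.Countable.mono hcover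
    apply Set.countable_iUnion
    intro n
    exact (List.finite_toSet _).countable
  exact Set.not_countable_univ hcount

end Pool.Agent.H2.Zg
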